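import Pool.Agent.Q95.PowerMonoid
import Mathlib.Data.Nat.ModEq
import Mathlib.Data.Set.Card
import Mathlib.Tactic.Ring
import Mathlib.Tactic.Linarith
import Mathlib.Tactic.NormNum.Prime

/-!
# MP_43520b_al, Q1: the unions of length sets of reduced finitary power monoids are intervals
-/

namespace Pool.Agent.Results.MP_43520b_al.Q1Intervals

open Pool.Agent.Q95.PowerMonoid Pool.Agent.Q95.PowerMonoid.PFin

variable {H : Type*} [Monoid H]

/-! ### Length sets -/

theorem prod_ne_one {w : List (PFin H)} (hw : ∀ a ∈ w, Irr a) (hlen : 1 ≤ w.length) :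
    w.prod ≠ 1 := by
  cases w with
  | nil => simp at hlen
  | cons a t =>
    intro h
    have h1 : a = 1 := by
      rw [eq_one_iff]
      intro x hx
      have : x ∈ (a :: t).prod := by rw [List.prod_cons]; exact left_sub _ _ hx
      rw [h] at this
      exact mem_one.1 this
    exact (irr_iff.1 (hw a (List.mem_cons_self))).1 h1

theorem mem_lengthSet {X : PFin H} {k : ℕ} (hk : 1 ≤ k) :
    k ∈ lengthSet X ↔ ∃ w : List (PFin H), (∀ a ∈ w, Irr a) ∧ w.prod = X ∧ w.length = k := by
  constructor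
  · rintro (⟨_, h⟩ | ⟨_, w, hw, hlen⟩)
    · omega
    · exact ⟨w, hw.1, hw.2, hlen⟩
  · rintro ⟨w, hw, hX, hlen⟩
    refine Or.inr ⟨?_, w, ⟨hw, hX⟩, hlen⟩
    rw [unitDivisor_iff, ← hX]
    exact prod_ne_one hw (by omega)

theorem zero_mem_lengthSet {X : PFin H} (h : 0 ∈ lengthSet X) : X = 1 := by
  rcases h with ⟨h, _⟩ | ⟨_, w, hw, hlen⟩
  · exact h
  · rw [List.length_eq_zero_iff] at hlen
    rw [← hw.2, hlen]
    rfl

theorem lengthSet_one {k : ℕ} (h : k ∈ lengthSet (1 : PFin H)) : k = 0 := by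
  rcases h with ⟨_, h⟩ | ⟨h, _⟩
  · exact h
  · exact absurd (unitDivisor_iff.2 rfl) h

theorem one_le_of_mem {k l : ℕ} (hk : 1 ≤ k) (h : l ∈ unionLengths (PFin H) k) : 1 ≤ l := by
  obtain ⟨X, h1, h2⟩ := h
  by_contra hl
  have hl0 : l = 0 := by omega
  subst hl0
  rw [zero_mem_lengthSet h2] at h1
  have := lengthSet_one h1
  omega

/-- Some irreducible absorbs a two-element set. -/
def Absorb (H : Type*) [Monoid H] : Prop :=
  ∃ (A : PFin H) (b : H), Irr A ∧ b ≠ 1 ∧ (A * pair b = A ∨ pair b * A = A)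

theorem mul_replicate {A : PFin H} {b : H} (h : A * pair b = A) (n : ℕ) :
    (A :: List.replicate n (pair b)).prod = A := by
  rw [List.prod_cons, List.prod_replicate]
  induction n with
  | zero => simp
  | succ n ih => rw [pow_succ, ← mul_assoc, ih, h]

theorem replicate_mul {A : PFin H} {b : H} (h : pair b * A = A) (n : ℕ) :
    (List.replicate n (pair b) ++ [A]).prod = A := by
  rw [List.prod_append, List.prod_replicate, List.prod_singleton]
  induction n with
  | zero => simp
  | succ n ih => rw [pow_succ, mul_assoc, h, ih]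

theorem absorb_lengths (h : Absorb H) :
    ∃ A : PFin H, ∀ k : ℕ, 1 ≤ k → k ∈ lengthSet A := by
  obtain ⟨A, b, hA, hb, h⟩ := h
  refine ⟨A, fun k hk => (mem_lengthSet hk).2 ?_⟩
  rcases h with h | h
  · refine ⟨A :: List.replicate (k - 1) (pair b), ?_, mul_replicate h _, ?_⟩
    · intro a ha
      rcases List.mem_cons.1 ha with rfl | ha
      · exact hA
      · rw [List.eq_of_mem_replicate ha]; exact irr_pair hb
    · simp; omega
  · refine ⟨List.replicate (k - 1) (pair b) ++ [A], ?_, replicate_mul h _, ?_⟩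
    · intro a ha
      rcases List.mem_append.1 ha with ha | ha
      · rw [List.eq_of_mem_replicate ha]; exact irr_pair hb
      · rw [List.mem_singleton.1 ha]; exact hA
    · simp; omega

theorem interval_ge (a : ℕ) : IsInterval {l : ℕ | a ≤ l} :=
  ⟨a, ⊤, by ext l; simp⟩

theorem absorb_interval (h : Absorb H) {k : ℕ} (hk : 1 ≤ k) :
    IsInterval (unionLengths (PFin H) k) := by
  obtain ⟨A, hA⟩ := absorb_lengths h
  have : unionLengths (PFin H) k = {l : ℕ | 1 ≤ l} := by
    ext l
    exact ⟨fun hl => one_le_of_mem hk hl, fun hl => ⟨A, hA k hk, hA l hl⟩⟩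
  rw [this]
  exact interval_ge 1

/-- If there is no absorption, the length set of an irreducible is `{1}`. -/
theorem length_of_irr (h : ¬ Absorb H) {X : PFin H} (hX : Irr X) {m : ℕ}
    (hm : m ∈ lengthSet X) : m = 1 := by
  have hX1 := (irr_iff.1 hX).1
  rcases Nat.lt_or_ge m 1 with h0 | h1
  · have : m = 0 := by omega
    subst this
    exact absurd (zero_mem_lengthSet hm) hX1
  · obtain ⟨w, hw, hprod, hlen⟩ := (mem_lengthSet h1).1 hm
    by_contra hm1
    cases w with
    | nil => simp at hlen; omega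
    | cons a t =>
      rw [List.prod_cons] at hprod
      have ht1 : t.prod ≠ 1 := prod_ne_one (fun x hx => hw x (List.mem_cons_of_mem _ hx)) (by
        rw [List.length_cons] at hlen; omega)
      have ha1 : a ≠ 1 := (irr_iff.1 (hw a List.mem_cons_self)).1
      rcases (irr_iff.1 hX).2 a t.prod hprod.symm with h2 | h2
      · -- `X * P = X`
        rw [h2] at hprod
        obtain ⟨b, hb, hb1⟩ : ∃ b ∈ t.prod, b ≠ 1 := by
          by_contra hcon; push Not at hcon; exact ht1 (eq_one_iff.2 hcon)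
        refine h ⟨X, b, hX, hb1, Or.inl (ext' fun x => ⟨?_, fun hx => left_sub _ _ hx⟩)⟩
        rintro ⟨y, hy, z, hz, rfl⟩
        rcases mem_pair.1 hz with rfl | rfl
        · show y * 1 ∈ X
          rw [mul_one]; exact hy
        · show y * z ∈ X
          rw [← hprod]
          exact mem_mul.2 ⟨y, hy, z, hb, rfl⟩
      · rw [h2] at hprod
        obtain ⟨b, hb, hb1⟩ : ∃ b ∈ a, b ≠ 1 := by
          by_contra hcon; push Not at hcon; exact ha1 (eq_one_iff.2 hcon)
        refine h ⟨X, b, hX, hb1, Or.inr (ext' fun x => ⟨?_, fun hx => right_sub _ _ hx⟩)⟩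
        rintro ⟨z, hz, y, hy, rfl⟩
        rcases mem_pair.1 hz with rfl | rfl
        · show 1 * y ∈ X
          rw [one_mul]; exact hy
        · show z * y ∈ X
          rw [← hprod]
          exact mem_mul.2 ⟨z, hb, y, hy, rfl⟩

theorem two_le_of_mem (h : ¬ Absorb H) {k l : ℕ} (hk : 2 ≤ k)
    (hl : l ∈ unionLengths (PFin H) k) : 2 ≤ l := by
  have h1 := one_le_of_mem (by omega) hl
  by_contra hlt
  have hl1 : l = 1 := by omega
  subst hl1
  obtain ⟨X, h2, h3⟩ := hl
  obtain ⟨w, hw, hprod, hlen⟩ := (mem_lengthSet le_rfl).1 h3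
  obtain ⟨a, rfl⟩ := List.length_eq_one_iff.1 hlen
  have hX : Irr X := by
    rw [← hprod, List.prod_singleton]; exact hw a (List.mem_singleton_self a)
  have := length_of_irr h hX h2
  omega

/-- From a product of two irreducibles that absorbs a two-element set. -/
theorem all_lengths_of_two {A B : PFin H} {b : H} (hA : Irr A) (hB : Irr B) (hb : b ≠ 1)
    (h : A * B * pair b = A * B) {l : ℕ} (hl : 2 ≤ l) : l ∈ lengthSet (A * B) := by
  refine (mem_lengthSet (by omega)).2 ⟨A :: B :: List.replicate (l - 2) (pair b), ?_, ?_, ?_⟩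
  · intro a ha
    rcases List.mem_cons.1 ha with rfl | ha
    · exact hA
    · rcases List.mem_cons.1 ha with rfl | ha
      · exact hB
      · rw [List.eq_of_mem_replicate ha]; exact irr_pair hb
  · have := mul_replicate h (l - 2)
    rw [List.prod_cons] at this
    rw [List.prod_cons, List.prod_cons, ← mul_assoc, this]
  · simp; omega

theorem interval_of_two (h : ¬ Absorb H) {A B : PFin H} {b : H} (hA : Irr A) (hB : Irr B)
    (hb : b ≠ 1) (hAB : A * B * pair b = A * B) {k : ℕ} (hk : 2 ≤ k) :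
    IsInterval (unionLengths (PFin H) k) := by
  have : unionLengths (PFin H) k = {l : ℕ | 2 ≤ l} := by
    ext l
    exact ⟨fun hl => two_le_of_mem h hk hl, fun hl =>
      ⟨A * B, all_lengths_of_two hA hB hb hAB hk, all_lengths_of_two hA hB hb hAB hl⟩⟩
  rw [this]
  exact interval_ge 2

/-! ### Sets of powers -/

/-- `{h^i : i ∈ E}` -/
def pw (h : H) (E : Finset ℕ) (hE : 0 ∈ E) : PFin H :=
  ⟨(fun i => h ^ i) '' (E : Set ℕ), E.finite_toSet.image _, ⟨0, hE, pow_zero h⟩⟩

theorem mem_pw {h : H} {E : Finset ℕ} {hE : 0 ∈ E} {a : H} :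
    a ∈ pw h E hE ↔ ∃ i ∈ E, h ^ i = a := Iff.rfl

theorem pair_eq_pw (h : H) : pair h = pw h {0, 1} (by decide) := by
  apply ext'
  intro a
  rw [mem_pair, mem_pw]
  constructor
  · rintro (rfl | rfl)
    · exact ⟨0, by decide, pow_zero h⟩
    · exact ⟨1, by decide, pow_one a⟩
  · rintro ⟨i, hi, rfl⟩
    rw [Finset.mem_insert, Finset.mem_singleton] at hi
    rcases hi with rfl | rfl
    · left; exact pow_zero h
    · right; exact pow_one h

theorem pw_mul_eq {h : H} {E F G : Finset ℕ} {hE : 0 ∈ E} {hF : 0 ∈ F} {hG : 0 ∈ G}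
    (h1 : ∀ i ∈ E, ∀ j ∈ F, ∃ g ∈ G, h ^ g = h ^ (i + j))
    (h2 : ∀ g ∈ G, ∃ i ∈ E, ∃ j ∈ F, h ^ (i + j) = h ^ g) :
    pw h E hE * pw h F hF = pw h G hG := by
  apply ext'
  intro a
  rw [mem_mul, mem_pw]
  constructor
  · rintro ⟨_, ⟨i, hi, rfl⟩, _, ⟨j, hj, rfl⟩, rfl⟩
    obtain ⟨g, hg, hgg⟩ := h1 i hi j hj
    exact ⟨g, hg, by rw [hgg, pow_add]⟩
  · rintro ⟨g, hg, rfl⟩
    obtain ⟨i, hi, j, hj, hij⟩ := h2 g hg
    exact ⟨_, ⟨i, hi, rfl⟩, _, ⟨j, hj, rfl⟩, by rw [← hij, pow_add]⟩

theorem range_mul_pair (h : H) (n : ℕ) :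
    pw h (Finset.range (n + 1)) (by simp) * pair h =
      pw h (Finset.range (n + 1 + 1)) (by simp) := by
  rw [pair_eq_pw]
  refine pw_mul_eq ?_ ?_
  · intro i hi j hj
    refine ⟨i + j, ?_, rfl⟩
    rw [Finset.mem_range] at hi ⊢
    rw [Finset.mem_insert, Finset.mem_singleton] at hj
    omega
  · intro g hg
    rw [Finset.mem_range] at hg
    by_cases hg0 : g ≤ n
    · exact ⟨g, by rw [Finset.mem_range]; omega, 0, by decide, rfl⟩
    · exact ⟨n, by rw [Finset.mem_range]; omega, 1, by decide, by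
        have : g = n + 1 := by omega
        rw [this]⟩

theorem pair_pow (h : H) (n : ℕ) : pair h ^ n = pw h (Finset.range (n + 1)) (by simp) := by
  induction n with
  | zero =>
    rw [pow_zero]
    apply ext'
    intro a
    rw [mem_one, mem_pw]
    constructor
    · rintro rfl; exact ⟨0, by simp, pow_zero h⟩
    · rintro ⟨i, hi, rfl⟩
      have : i = 0 := by simpa using hi
      rw [this, pow_zero]
  | succ n ih => rw [pow_succ, ih, range_mul_pair]

/-! ### Elements of infinite order -/

theorem exists_irr_range {h : H} (hinj : ∀ i j : ℕ, h ^ i = h ^ j → i = j) (n : ℕ) (hn : 2 ≤ n) :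
    ∃ C : PFin H, Irr C ∧ pair h * C = pw h (Finset.range (n + 1)) (by simp) := by
  have hone : ∀ i : ℕ, h ^ i = 1 → i = 0 := fun i hi => hinj i 0 (by rw [hi, pow_zero])
  rcases Nat.even_or_odd' n with ⟨m, rfl | rfl⟩
  · -- even
    let E : Finset ℕ := (Finset.range (2 * m)).filter fun i => i = 0 ∨ i % 2 = 1
    have hE : ∀ i, i ∈ E ↔ i < 2 * m ∧ (i = 0 ∨ i % 2 = 1) := fun i => by
      rw [Finset.mem_filter, Finset.mem_range]
    have hE0 : 0 ∈ E := (hE 0).2 ⟨by omega, Or.inl rfl⟩
    refine ⟨pw h E hE0, ?_, ?_⟩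
    · refine irr_of_elem (d := h ^ 1) ⟨1, (hE 1).2 ⟨by omega, Or.inr rfl⟩, rfl⟩
        (fun hh => by have := hone 1 hh; omega) ?_ ?_
      · rintro _ ⟨i, hi, rfl⟩ _ ⟨j, hj, rfl⟩ hij
        have h1 : i + j = 1 := hinj _ _ (by rw [pow_add]; exact hij)
        rcases Nat.eq_zero_or_pos i with rfl | hi0
        · left; exact pow_zero h
        · right
          have : j = 0 := by omega
          rw [this]; exact pow_zero h
      · rintro _ ⟨i, hi, rfl⟩ hi1
        have hi0 : i ≠ 0 := by rintro rfl; exact hi1 (pow_zero h)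
        have hi' := (hE i).1 hi
        constructor
        · rintro ⟨j, hj, hj2⟩
          have h1 : j = 1 + i := hinj _ _ (by rw [pow_add]; exact hj2)
          have hj' := (hE j).1 hj
          omega
        · rintro ⟨j, hj, hj2⟩
          have h1 : j = i + 1 := hinj _ _ (by rw [pow_add]; exact hj2)
          have hj' := (hE j).1 hj
          omega
    · rw [pair_eq_pw]
      refine pw_mul_eq ?_ ?_
      · intro i hi j hj
        rw [Finset.mem_insert, Finset.mem_singleton] at hi
        have hj' := (hE j).1 hj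
        exact ⟨i + j, by rw [Finset.mem_range]; omega, rfl⟩
      · intro g hg
        rw [Finset.mem_range] at hg
        by_cases hg2 : g % 2 = 1
        · exact ⟨0, by decide, g, (hE g).2 ⟨by omega, Or.inr hg2⟩, by rw [zero_add]⟩
        · by_cases hg0 : g = 0
          · exact ⟨0, by decide, 0, hE0, by rw [hg0]⟩
          · exact ⟨1, by decide, g - 1, (hE _).2 ⟨by omega, Or.inr (by omega)⟩, by
              congr 1; omega⟩
  · by_cases hm : m = 1
    · -- `n = 3`
      subst hm
      refine ⟨pw h {0, 2} (by decide), ?_, ?_⟩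
      · have : pw h {0, 2} (by decide) = pair (h ^ 2) := by
          apply ext'
          intro a
          rw [mem_pw, mem_pair]
          constructor
          · rintro ⟨i, hi, rfl⟩
            rw [Finset.mem_insert, Finset.mem_singleton] at hi
            rcases hi with rfl | rfl
            · left; exact pow_zero h
            · right; rfl
          · rintro (rfl | rfl)
            · exact ⟨0, by decide, pow_zero h⟩
            · exact ⟨2, by decide, rfl⟩
        rw [this]
        exact irr_pair (fun hh => by have := hone 2 hh; omega)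
      · rw [pair_eq_pw]
        refine pw_mul_eq ?_ ?_
        · intro i hi j hj
          rw [Finset.mem_insert, Finset.mem_singleton] at hi hj
          exact ⟨i + j, by rw [Finset.mem_range]; omega, rfl⟩
        · intro g hg
          rw [Finset.mem_range] at hg
          by_cases hg2 : g < 2
          · exact ⟨g, by rw [Finset.mem_insert, Finset.mem_singleton]; omega, 0, by decide, rfl⟩
          · exact ⟨g - 2, by rw [Finset.mem_insert, Finset.mem_singleton]; omega, 2, by decide,
              by congr 1; omega⟩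
    · -- odd, at least 5
      have hm2 : 2 ≤ m := by omega
      let E : Finset ℕ := (Finset.range (2 * m + 1)).filter fun i => i % 2 = 0 ∨ i = 2 * m - 1
      have hE : ∀ i, i ∈ E ↔ i < 2 * m + 1 ∧ (i % 2 = 0 ∨ i = 2 * m - 1) := fun i => by
        rw [Finset.mem_filter, Finset.mem_range]
      have hE0 : 0 ∈ E := (hE 0).2 ⟨by omega, Or.inl rfl⟩
      refine ⟨pw h E hE0, ?_, ?_⟩
      · refine irr_of_elem (d := h ^ (2 * m - 1)) ⟨_, (hE _).2 ⟨by omega, Or.inr rfl⟩, rfl⟩
          (fun hh => by have := hone _ hh; omega) ?_ ?_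
        · rintro _ ⟨i, hi, rfl⟩ _ ⟨j, hj, rfl⟩ hij
          have h1 : i + j = 2 * m - 1 := hinj _ _ (by rw [pow_add]; exact hij)
          have hi' := (hE i).1 hi
          have hj' := (hE j).1 hj
          rcases Nat.eq_zero_or_pos i with rfl | hi0
          · left; exact pow_zero h
          · right
            have : j = 0 := by omega
            rw [this]; exact pow_zero h
        · rintro _ ⟨i, hi, rfl⟩ hi1
          have hi0 : i ≠ 0 := by rintro rfl; exact hi1 (pow_zero h)
          have hi' := (hE i).1 hi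
          constructor
          · rintro ⟨j, hj, hj2⟩
            have h1 : j = 2 * m - 1 + i := hinj _ _ (by rw [pow_add]; exact hj2)
            have hj' := (hE j).1 hj
            omega
          · rintro ⟨j, hj, hj2⟩
            have h1 : j = i + (2 * m - 1) := hinj _ _ (by rw [pow_add]; exact hj2)
            have hj' := (hE j).1 hj
            omega
      · rw [pair_eq_pw]
        refine pw_mul_eq ?_ ?_
        · intro i hi j hj
          rw [Finset.mem_insert, Finset.mem_singleton] at hi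
          have hj' := (hE j).1 hj
          exact ⟨i + j, by rw [Finset.mem_range]; omega, rfl⟩
        · intro g hg
          rw [Finset.mem_range] at hg
          by_cases hg2 : g % 2 = 0
          · exact ⟨0, by decide, g, (hE g).2 ⟨by omega, Or.inl hg2⟩, by rw [zero_add]⟩
          · exact ⟨1, by decide, g - 1, (hE _).2 ⟨by omega, Or.inl (by omega)⟩, by
              congr 1; omega⟩

theorem infinite_order_aux {h : H} (hinj : ∀ i j : ℕ, h ^ i = h ^ j → i = j) (k l : ℕ)
    (hk : 2 ≤ k) (hkl : k ≤ l) : ∃ X : PFin H, k ∈ lengthSet X ∧ l ∈ lengthSet X := by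
  have h1 : h ≠ 1 := fun hh => by
    have := hinj 1 0 (by rw [pow_one, pow_zero, hh]); omega
  obtain ⟨C, hC, hC2⟩ := exists_irr_range hinj (l - k + 2) (by omega)
  refine ⟨pair h ^ l, (mem_lengthSet (by omega)).2 ?_, (mem_lengthSet (by omega)).2 ?_⟩
  · refine ⟨List.replicate (k - 1) (pair h) ++ [C], ?_, ?_, by simp; omega⟩
    · intro a ha
      rcases List.mem_append.1 ha with ha | ha
      · rw [List.eq_of_mem_replicate ha]; exact irr_pair h1
      · rw [List.mem_singleton.1 ha]; exact hC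
    · rw [List.prod_append, List.prod_replicate, List.prod_singleton]
      have e1 : k - 1 = (k - 2) + 1 := by omega
      rw [e1, pow_succ, mul_assoc, hC2, ← pair_pow, ← pow_add]
      congr 1
      omega
  · exact ⟨List.replicate l (pair h), fun a ha => by
      rw [List.eq_of_mem_replicate ha]; exact irr_pair h1, List.prod_replicate _ _, by simp⟩

theorem infinite_order (hab : ¬ Absorb H) {h : H} (hinj : ∀ i j : ℕ, h ^ i = h ^ j → i = j)
    {k : ℕ} (hk : 2 ≤ k) : IsInterval (unionLengths (PFin H) k) := by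
  have : unionLengths (PFin H) k = {l : ℕ | 2 ≤ l} := by
    ext l
    refine ⟨fun hl => two_le_of_mem hab hk hl, fun hl => ?_⟩
    rcases le_total k l with hkl | hkl
    · obtain ⟨X, h1, h2⟩ := infinite_order_aux hinj k l hk hkl
      exact ⟨X, h1, h2⟩
    · obtain ⟨X, h1, h2⟩ := infinite_order_aux hinj l k hl hkl
      exact ⟨X, h2, h1⟩
  rw [this]
  exact interval_ge 2

/-! ### Periodic elements -/

theorem no_idem (hab : ¬ Absorb H) {e : H} (he : e * e = e) : e = 1 := by
  by_contra he1
  refine hab ⟨pair e, e, irr_pair he1, he1, Or.inl (ext' fun a => ⟨?_, fun ha => left_sub _ _ ha⟩)⟩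
  rintro ⟨x, hx, y, hy, rfl⟩
  rcases mem_pair.1 hx with rfl | rfl <;> rcases mem_pair.1 hy with rfl | rfl
  · exact mem_pair.2 (Or.inl (mul_one 1))
  · exact mem_pair.2 (Or.inr (one_mul _))
  · exact mem_pair.2 (Or.inr (mul_one _))
  · exact mem_pair.2 (Or.inr he)

theorem no_invol (hab : ¬ Absorb H) {t : H} (ht : t * t = 1) : t = 1 := by
  by_contra ht1
  refine hab ⟨pair t, t, irr_pair ht1, ht1, Or.inl (ext' fun a => ⟨?_, fun ha => left_sub _ _ ha⟩)⟩
  rintro ⟨x, hx, y, hy, rfl⟩
  rcases mem_pair.1 hx with rfl | rfl <;> rcases mem_pair.1 hy with rfl | rfl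
  · exact mem_pair.2 (Or.inl (mul_one 1))
  · exact mem_pair.2 (Or.inr (one_mul _))
  · exact mem_pair.2 (Or.inr (mul_one _))
  · exact mem_pair.2 (Or.inl ht)

theorem torsion_of_not_inj (hab : ¬ Absorb H) {h : H} {i j : ℕ} (hij : i < j)
    (hh : h ^ i = h ^ j) : ∃ n, 0 < n ∧ h ^ n = 1 := by
  obtain ⟨p, hp, rfl⟩ : ∃ p, 0 < p ∧ j = i + p := ⟨j - i, by omega, by omega⟩
  have h1 : ∀ a, i ≤ a → h ^ (a + p) = h ^ a := by
    intro a ha
    obtain ⟨b, rfl⟩ := Nat.exists_eq_add_of_le ha
    rw [show i + b + p = b + (i + p) by omega, pow_add, ← hh, ← pow_add]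
    congr 1
    omega
  have h2 : ∀ t a, i ≤ a → h ^ (a + t * p) = h ^ a := by
    intro t
    induction t with
    | zero => intro a _; simp
    | succ t ih =>
      intro a ha
      rw [Nat.succ_mul, ← add_assoc, h1 _ (by omega), ih a ha]
  refine ⟨(i + 1) * p, Nat.mul_pos (by omega) hp, no_idem hab ?_⟩
  rw [← pow_add]
  exact h2 (i + 1) _ (le_trans (Nat.le_succ i) (Nat.le_mul_of_pos_right _ hp))

section torsion

variable (htor : ∀ a : H, ∃ n, 0 < n ∧ a ^ n = 1)
include htor

theorem left_cancel {a b c : H} (h : a * b = a * c) : b = c := by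
  obtain ⟨n, hn, ha⟩ := htor a
  have h1 : a ^ (n - 1) * a = 1 := by rw [← pow_succ, Nat.sub_add_cancel hn, ha]
  have h2 := congrArg (fun x => a ^ (n - 1) * x) h
  simp only [← mul_assoc, h1, one_mul] at h2
  exact h2

theorem right_cancel {a b c : H} (h : b * a = c * a) : b = c := by
  obtain ⟨n, hn, ha⟩ := htor a
  have h1 : a * a ^ (n - 1) = 1 := by rw [← pow_succ', Nat.sub_add_cancel hn, ha]
  have h2 := congrArg (fun x => x * a ^ (n - 1)) h
  simp only [mul_assoc, h1, mul_one] at h2
  exact h2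

theorem noncyclic (hab : ¬ Absorb H) {h g : H} (hh : h ≠ 1) (hg : ∀ i : ℕ, g ≠ h ^ i)
    {k : ℕ} (hk : 2 ≤ k) : IsInterval (unionLengths (PFin H) k) := by
  obtain ⟨n, hn, hhn⟩ := htor h
  have hh2 : h ^ 2 ≠ 1 := fun h2 => hh (no_invol hab (by rw [← pow_two, h2]))
  have hinv : ∀ i : ℕ, h ^ (i * (n - 1)) * h ^ i = 1 ∧ h ^ i * h ^ (i * (n - 1)) = 1 := by
    intro i
    rw [← pow_add, ← pow_add]
    have e1 : i * (n - 1) + i = n * i := by
      obtain ⟨m, rfl⟩ : ∃ m, n = m + 1 := ⟨n - 1, by omega⟩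
      simp only [Nat.add_sub_cancel]; ring
    have e2 : i + i * (n - 1) = n * i := by rw [add_comm, e1]
    rw [e1, e2, pow_mul, hhn, one_pow]
    exact ⟨rfl, rfl⟩
  -- `g` does not lie in a product of powers of `h`
  have hgl : ∀ i j : ℕ, h ^ i * g ≠ h ^ j := by
    intro i j hc
    apply hg (i * (n - 1) + j)
    rw [pow_add, ← hc, ← mul_assoc, (hinv i).1, one_mul]
  have hgr : ∀ i j : ℕ, g * h ^ i ≠ h ^ j := by
    intro i j hc
    apply hg (j + i * (n - 1))
    rw [pow_add, ← hc, mul_assoc, (hinv i).2, mul_one]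
  have hfin : ({a : H | ∃ i : ℕ, a = h ^ i}).Finite := by
    refine ((Set.finite_lt_nat n).image fun i => h ^ i).subset ?_
    rintro _ ⟨i, rfl⟩
    refine ⟨i % n, Nat.mod_lt _ hn, ?_⟩
    show h ^ (i % n) = h ^ i
    conv_rhs => rw [← Nat.div_add_mod i n, pow_add, pow_mul, hhn, one_pow, one_mul]
  -- the two factors
  let A : PFin H := ⟨{a | (∃ i : ℕ, a = h ^ i) ∨ a = g}, hfin.union (Set.finite_singleton g),
    Or.inl ⟨0, (pow_zero h).symm⟩⟩
  let B : PFin H := ⟨{a | a = 1 ∨ ∃ i : ℕ, a = g * h ^ i}, by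
    refine (Set.finite_singleton 1).union ((hfin.image fun a => g * a).subset ?_)
    rintro _ ⟨i, rfl⟩
    exact ⟨_, ⟨i, rfl⟩, rfl⟩, Or.inl rfl⟩
  have memA : ∀ a, a ∈ A ↔ (∃ i : ℕ, a = h ^ i) ∨ a = g := fun _ => Iff.rfl
  have memB : ∀ a, a ∈ B ↔ a = 1 ∨ ∃ i : ℕ, a = g * h ^ i := fun _ => Iff.rfl
  have hA : Irr A := by
    rw [irr_iff]
    refine ⟨fun hA1 => hh (eq_one_iff.1 hA1 h ((memA h).2 (Or.inl ⟨1, (pow_one h).symm⟩))), ?_⟩
    intro P Q hPQ
    have hP : ∀ {a}, a ∈ P → a ∈ A := fun ha => by rw [hPQ]; exact left_sub _ _ ha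
    have hQ : ∀ {a}, a ∈ Q → a ∈ A := fun ha => by rw [hPQ]; exact right_sub _ _ ha
    by_cases hgQ : g ∈ Q
    · -- powers in `P` are trivial
      have h1 : ∀ i : ℕ, h ^ i ∈ P → h ^ i = 1 := by
        intro i hi
        have h2 : h ^ i * g ∈ A := by rw [hPQ]; exact mem_mul.2 ⟨_, hi, _, hgQ, rfl⟩
        rcases (memA _).1 h2 with ⟨j, hj⟩ | h3
        · exact absurd hj (hgl i j)
        · exact right_cancel htor (a := g) (by rw [h3, one_mul])
      by_cases hgP : g ∈ P
      · -- powers in `Q` are trivial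
        have h2 : ∀ i : ℕ, h ^ i ∈ Q → h ^ i = 1 := by
          intro i hi
          have h2 : g * h ^ i ∈ A := by rw [hPQ]; exact mem_mul.2 ⟨_, hgP, _, hi, rfl⟩
          rcases (memA _).1 h2 with ⟨j, hj⟩ | h3
          · exact absurd hj (hgr i j)
          · exact left_cancel htor (a := g) (by rw [h3, mul_one])
        exfalso
        have h3 : ∀ a ∈ P, a = 1 ∨ a = g := by
          intro a ha
          rcases (memA a).1 (hP ha) with ⟨i, rfl⟩ | rfl
          · exact Or.inl (h1 i ha)
          · exact Or.inr rfl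
        have h4 : ∀ a ∈ Q, a = 1 ∨ a = g := by
          intro a ha
          rcases (memA a).1 (hQ ha) with ⟨i, rfl⟩ | rfl
          · exact Or.inl (h2 i ha)
          · exact Or.inr rfl
        have h5 : ∀ a ∈ A, a = 1 ∨ a = g ∨ a = g * g := by
          intro a ha
          rw [hPQ] at ha
          obtain ⟨x, hx, y, hy, rfl⟩ := mem_mul.1 ha
          rcases h3 x hx with rfl | rfl <;> rcases h4 y hy with rfl | rfl
          · left; exact mul_one 1
          · right; left; exact one_mul _
          · right; left; exact mul_one _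
          · right; right; rfl
        have h6 : h = g * g := by
          rcases h5 h ((memA h).2 (Or.inl ⟨1, (pow_one h).symm⟩)) with h6 | h6 | h6
          · exact absurd h6 hh
          · exact absurd (h6.symm.trans (pow_one h).symm) (hg 1)
          · exact h6
        rcases h5 (h ^ 2) ((memA _).2 (Or.inl ⟨2, rfl⟩)) with h7 | h7 | h7
        · exact hh2 h7
        · exact hg 2 h7.symm
        · rw [← h6, pow_two] at h7
          exact hh (left_cancel htor (a := h) (by rw [h7, mul_one]))
      · right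
        have hP1 : P = 1 := by
          rw [eq_one_iff]
          intro a ha
          rcases (memA a).1 (hP ha) with ⟨i, rfl⟩ | rfl
          · exact h1 i ha
          · exact absurd ha hgP
        rw [hPQ, hP1, one_mul]
    · left
      have hgA : g ∈ P * Q := by rw [← hPQ]; exact (memA g).2 (Or.inr rfl)
      have hgP : g ∈ P := by
        obtain ⟨x, hx, y, hy, hxy⟩ := mem_mul.1 hgA
        rcases (memA y).1 (hQ hy) with ⟨j, rfl⟩ | rfl
        · rcases (memA x).1 (hP hx) with ⟨i, rfl⟩ | rfl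
          · rw [← pow_add] at hxy
            exact absurd hxy.symm (hg _)
          · exact hx
        · exact absurd hy hgQ
      have hQ1 : Q = 1 := by
        rw [eq_one_iff]
        intro a ha
        rcases (memA a).1 (hQ ha) with ⟨i, rfl⟩ | rfl
        · have h2 : g * h ^ i ∈ A := by rw [hPQ]; exact mem_mul.2 ⟨_, hgP, _, ha, rfl⟩
          rcases (memA _).1 h2 with ⟨j, hj⟩ | h3
          · exact absurd hj (hgr i j)
          · exact left_cancel htor (a := g) (by rw [h3, mul_one])
        · exact absurd ha hgQ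
      rw [hPQ, hQ1, mul_one]
  have hgne : g ≠ 1 := fun h1 => hg 0 (by rw [h1, pow_zero])
  have hB : Irr B := by
    rw [irr_iff]
    refine ⟨fun hB1 => hgne (eq_one_iff.1 hB1 g ((memB g).2 (Or.inr ⟨0, by simp⟩))), ?_⟩
    intro P Q hPQ
    have hP : ∀ {a}, a ∈ P → a ∈ B := fun ha => by rw [hPQ]; exact left_sub _ _ ha
    have hQ : ∀ {a}, a ∈ Q → a ∈ B := fun ha => by rw [hPQ]; exact right_sub _ _ ha
    by_cases hP1 : P = 1
    · right; rw [hPQ, hP1, one_mul]
    · by_cases hQ1 : Q = 1
      · left; rw [hPQ, hQ1, mul_one]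
      · exfalso
        obtain ⟨p, hp, hp1⟩ : ∃ p ∈ P, p ≠ 1 := by
          by_contra hcon; push Not at hcon; exact hP1 (eq_one_iff.2 hcon)
        obtain ⟨q, hq, hq1⟩ : ∃ q ∈ Q, q ≠ 1 := by
          by_contra hcon; push Not at hcon; exact hQ1 (eq_one_iff.2 hcon)
        have hprod : ∀ p' ∈ P, p' ≠ 1 → ∀ q' ∈ Q, q' ≠ 1 → p' * q' = 1 := by
          intro p' hp' hp1' q' hq' hq1'
          have h1 : p' * q' ∈ B := by rw [hPQ]; exact mem_mul.2 ⟨_, hp', _, hq', rfl⟩
          rcases (memB _).1 h1 with h2 | ⟨m, hm⟩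
          · exact h2
          · exfalso
            rcases (memB p').1 (hP hp') with h3 | ⟨i, rfl⟩
            · exact hp1' h3
            · rcases (memB q').1 (hQ hq') with h3 | ⟨j, rfl⟩
              · exact hq1' h3
              · rw [mul_assoc] at hm
                have h4 := left_cancel htor hm
                rw [← mul_assoc] at h4
                have h5 : h ^ i * g = h ^ (m + j * (n - 1)) := by
                  rw [pow_add, ← h4, mul_assoc, mul_assoc, (hinv j).2, mul_one]
                exact hgl _ _ h5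
        have hP' : ∀ a ∈ P, a = 1 ∨ a = p := by
          intro a ha
          by_cases ha1 : a = 1
          · exact Or.inl ha1
          · right
            exact right_cancel htor (a := q) ((hprod a ha ha1 q hq hq1).trans
              (hprod p hp hp1 q hq hq1).symm)
        have hQ' : ∀ a ∈ Q, a = 1 ∨ a = q := by
          intro a ha
          by_cases ha1 : a = 1
          · exact Or.inl ha1
          · right
            exact left_cancel htor (a := p) ((hprod p hp hp1 a ha ha1).trans
              (hprod p hp hp1 q hq hq1).symm)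
        have h5 : ∀ a ∈ B, a = 1 ∨ a = p ∨ a = q := by
          intro a ha
          rw [hPQ] at ha
          obtain ⟨x, hx, y, hy, rfl⟩ := mem_mul.1 ha
          rcases hP' x hx with rfl | rfl <;> rcases hQ' y hy with rfl | rfl
          · left; exact mul_one 1
          · right; right; exact one_mul _
          · right; left; exact mul_one _
          · left; exact hprod _ hp hp1 _ hq hq1
        have e0 := h5 (g * h ^ 0) ((memB _).2 (Or.inr ⟨0, rfl⟩))
        have e1 := h5 (g * h ^ 1) ((memB _).2 (Or.inr ⟨1, rfl⟩))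
        have e2 := h5 (g * h ^ 2) ((memB _).2 (Or.inr ⟨2, rfl⟩))
        have ne : ∀ i : ℕ, g * h ^ i ≠ 1 := fun i hi => hgr i 0 (by rw [hi, pow_zero])
        have n01 : g * h ^ 0 ≠ g * h ^ 1 := fun hc => hh (by
          have := left_cancel htor hc
          rw [pow_zero, pow_one] at this
          exact this.symm)
        have n02 : g * h ^ 0 ≠ g * h ^ 2 := fun hc => hh2 (by
          have := left_cancel htor hc
          rw [pow_zero] at this
          exact this.symm)
        have n12 : g * h ^ 1 ≠ g * h ^ 2 := fun hc => hh (by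
          have := left_cancel htor hc
          rw [pow_one, pow_two] at this
          exact (left_cancel htor (a := h) (by rw [mul_one]; exact this)).symm)
        rcases e0 with e0 | e0 | e0
        · exact ne 0 e0
        · rcases e1 with e1 | e1 | e1
          · exact ne 1 e1
          · exact n01 (e0.trans e1.symm)
          · rcases e2 with e2 | e2 | e2
            · exact ne 2 e2
            · exact n02 (e0.trans e2.symm)
            · exact n12 (e1.trans e2.symm)
        · rcases e1 with e1 | e1 | e1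
          · exact ne 1 e1
          · rcases e2 with e2 | e2 | e2
            · exact ne 2 e2
            · exact n12 (e1.trans e2.symm)
            · exact n02 (e0.trans e2.symm)
          · exact n01 (e0.trans e1.symm)
  refine interval_of_two hab hA hB hh ?_ hk
  apply ext'
  intro x
  refine ⟨?_, fun hx => left_sub _ _ hx⟩
  rintro ⟨y, hy, z, hz, rfl⟩
  rcases mem_pair.1 hz with rfl | rfl
  · show y * 1 ∈ A * B
    rw [mul_one]; exact hy
  · show y * z ∈ A * B
    obtain ⟨a, ha, b, hb, rfl⟩ := hy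
    show a * b * z ∈ A * B
    rcases (memB b).1 hb with rfl | ⟨i, rfl⟩
    · rw [mul_one]
      rcases (memA a).1 ha with ⟨i, rfl⟩ | rfl
      · rw [← pow_succ]
        exact left_sub _ _ ((memA _).2 (Or.inl ⟨_, rfl⟩))
      · exact right_sub _ _ ((memB _).2 (Or.inr ⟨1, by rw [pow_one]⟩))
    · refine mem_mul.2 ⟨a, ha, g * z ^ (i + 1), (memB _).2 (Or.inr ⟨_, rfl⟩), ?_⟩
      rw [pow_succ, mul_assoc, mul_assoc]

theorem mod_lemma {h : H} {a b : ℕ} (hab : h ^ a = h ^ b) (ha : a < 2 * orderOf h)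
    (hb : b < orderOf h) : a = b ∨ a = b + orderOf h := by
  rcases le_total a b with hle | hle
  · left
    obtain ⟨c, rfl⟩ := Nat.exists_eq_add_of_le hle
    rw [pow_add] at hab
    have h1 : h ^ c = 1 := left_cancel htor (a := h ^ a) (by rw [← hab, mul_one])
    rcases Nat.eq_zero_or_pos c with rfl | hc
    · rfl
    · have := Nat.le_of_dvd hc (orderOf_dvd_of_pow_eq_one h1)
      omega
  · obtain ⟨c, rfl⟩ := Nat.exists_eq_add_of_le hle
    rw [pow_add] at hab
    have h1 : h ^ c = 1 := left_cancel htor (a := h ^ b) (by rw [hab, mul_one])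
    obtain ⟨t, ht⟩ := orderOf_dvd_of_pow_eq_one h1
    rcases Nat.lt_or_ge t 2 with h2 | h2
    · have ht2 : t = 0 ∨ t = 1 := by omega
      rcases ht2 with rfl | rfl
      · left; rw [ht, mul_zero, add_zero]
      · right; rw [ht, mul_one]
    · exfalso
      have : orderOf h * 2 ≤ orderOf h * t := Nat.mul_le_mul_left _ h2
      omega

theorem orderOf_pos'' (h : H) : 0 < orderOf h := by
  obtain ⟨n, hn, h1⟩ := htor h
  exact orderOf_pos_iff.2 (isOfFinOrder_iff_pow_eq_one.2 ⟨n, hn, h1⟩)

/-- The cyclic case of order `2m + 1`, `m = 1` or `m ≥ 3`. -/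
theorem cyclic_big (hab : ¬ Absorb H) {h : H} (hh : h ≠ 1) (hcyc : ∀ a : H, ∃ i : ℕ, a = h ^ i)
    {m : ℕ} (hn : orderOf h = 2 * m + 1) (hm : m = 1 ∨ 3 ≤ m) {k : ℕ} (hk : 2 ≤ k) :
    IsInterval (unionLengths (PFin H) k) := by
  have hmod : ∀ {a b : ℕ}, h ^ a = h ^ b → a < 4 * m + 2 → b < 2 * m + 1 →
      a = b ∨ a = b + (2 * m + 1) := by
    intro a b h1 ha hb
    rw [← hn]
    exact mod_lemma htor h1 (by omega) (by omega)
  have hper : h ^ (2 * m + 1) = 1 := by rw [← hn]; exact pow_orderOf_eq_one h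
  have hred : ∀ a : H, ∃ i, i < 2 * m + 1 ∧ a = h ^ i := by
    intro a
    obtain ⟨i, rfl⟩ := hcyc a
    refine ⟨i % (2 * m + 1), Nat.mod_lt _ (by omega), ?_⟩
    conv_lhs => rw [← Nat.div_add_mod i (2 * m + 1), pow_add, pow_mul, hper, one_pow, one_mul]
  let E : Finset ℕ := (Finset.range (m + 1)).filter fun i => i = 0 ∨ i % 2 = 1
  have hE : ∀ i, i ∈ E ↔ i < m + 1 ∧ (i = 0 ∨ i % 2 = 1) := fun i => by
    rw [Finset.mem_filter, Finset.mem_range]
  have hE0 : 0 ∈ E := (hE 0).2 ⟨by omega, Or.inl rfl⟩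
  let F : Finset ℕ := (Finset.range (2 * m + 1)).filter fun i => i = 0 ∨ (i % 2 = 0 ∧ m ≤ i)
  have hF : ∀ i, i ∈ F ↔ i < 2 * m + 1 ∧ (i = 0 ∨ (i % 2 = 0 ∧ m ≤ i)) := fun i => by
    rw [Finset.mem_filter, Finset.mem_range]
  have hF0 : 0 ∈ F := (hF 0).2 ⟨by omega, Or.inl rfl⟩
  have hC : Irr (pw h E hE0) := by
    refine irr_of_elem (d := h ^ 1) ⟨1, (hE 1).2 ⟨by omega, Or.inr rfl⟩, rfl⟩
      (fun h1 => hh (by rwa [pow_one] at h1)) ?_ ?_
    · rintro _ ⟨i, hi, rfl⟩ _ ⟨j, hj, rfl⟩ hij
      have hi' := (hE i).1 hi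
      have hj' := (hE j).1 hj
      have h1 := hmod (a := i + j) (b := 1) (by rw [pow_add]; exact hij) (by omega) (by omega)
      rcases Nat.eq_zero_or_pos i with rfl | hi0
      · left; exact pow_zero h
      · right
        have : j = 0 := by omega
        rw [this]; exact pow_zero h
    · rintro _ ⟨i, hi, rfl⟩ hi1
      have hi0 : i ≠ 0 := by rintro rfl; exact hi1 (pow_zero h)
      have hi' := (hE i).1 hi
      constructor
      · rintro ⟨j, hj, hj2⟩
        have hj' := (hE j).1 hj
        have h1 := hmod (a := 1 + i) (b := j) (by rw [pow_add]; exact hj2.symm) (by omega)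
          (by omega)
        omega
      · rintro ⟨j, hj, hj2⟩
        have hj' := (hE j).1 hj
        have h1 := hmod (a := i + 1) (b := j) (by rw [pow_add]; exact hj2.symm) (by omega)
          (by omega)
        omega
  have hD : Irr (pw h F hF0) := by
    obtain ⟨d, hd⟩ : ∃ d, (m % 2 = 1 ∧ d = m + 1) ∨ (m % 2 = 0 ∧ d = m + 2) := by
      rcases Nat.mod_two_eq_zero_or_one m with h0 | h1
      · exact ⟨m + 2, Or.inr ⟨h0, rfl⟩⟩
      · exact ⟨m + 1, Or.inl ⟨h1, rfl⟩⟩
    have hdF : d ∈ F := (hF d).2 ⟨by omega, by omega⟩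
    refine irr_of_elem (d := h ^ d) ⟨d, hdF, rfl⟩ (fun h1 => ?_) ?_ ?_
    · have := hmod (a := d) (b := 0) (by rw [h1, pow_zero]) (by omega) (by omega)
      omega
    · rintro _ ⟨i, hi, rfl⟩ _ ⟨j, hj, rfl⟩ hij
      have hi' := (hF i).1 hi
      have hj' := (hF j).1 hj
      have h1 := hmod (a := i + j) (b := d) (by rw [pow_add]; exact hij) (by omega) (by omega)
      rcases Nat.eq_zero_or_pos i with rfl | hi0
      · left; exact pow_zero h
      · right
        have : j = 0 := by omega
        rw [this]; exact pow_zero h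
    · rintro _ ⟨i, hi, rfl⟩ hi1
      have hi0 : i ≠ 0 := by rintro rfl; exact hi1 (pow_zero h)
      have hi' := (hF i).1 hi
      constructor
      · rintro ⟨j, hj, hj2⟩
        have hj' := (hF j).1 hj
        have h1 := hmod (a := d + i) (b := j) (by rw [pow_add]; exact hj2.symm) (by omega)
          (by omega)
        omega
      · rintro ⟨j, hj, hj2⟩
        have hj' := (hF j).1 hj
        have h1 := hmod (a := i + d) (b := j) (by rw [pow_add]; exact hj2.symm) (by omega)
          (by omega)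
        omega
  have hall : ∀ a : H, a ∈ pw h E hE0 * pw h F hF0 := by
    intro a
    obtain ⟨i, hi, rfl⟩ := hred a
    have hmem : ∀ c d, c ∈ E → d ∈ F → h ^ (c + d) = h ^ i →
        h ^ i ∈ pw h E hE0 * pw h F hF0 := fun c d hc hd hcd =>
      mem_mul.2 ⟨_, ⟨c, hc, rfl⟩, _, ⟨d, hd, rfl⟩, by rw [← hcd, pow_add]⟩
    rcases Nat.mod_two_eq_zero_or_one i with h0 | h1
    · by_cases him : m ≤ i
      · exact hmem 0 i hE0 ((hF i).2 ⟨hi, Or.inr ⟨h0, him⟩⟩) (by rw [zero_add])
      · refine hmem (i + 1) (2 * m) ((hE _).2 ⟨by omega, by omega⟩) ((hF _).2 ⟨by omega, by omega⟩)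
          ?_
        rw [show i + 1 + 2 * m = i + (2 * m + 1) by omega, pow_add, hper, mul_one]
    · by_cases him : i ≤ m
      · exact hmem i 0 ((hE i).2 ⟨by omega, Or.inr h1⟩) hF0 (by rw [add_zero])
      · exact hmem 1 (i - 1) ((hE 1).2 ⟨by omega, Or.inr rfl⟩)
          ((hF _).2 ⟨by omega, Or.inr ⟨by omega, by omega⟩⟩) (by congr 1; omega)
  exact interval_of_two hab hC hD hh (ext' fun a => ⟨fun _ => hall a, fun ha => left_sub _ _ ha⟩) hk

/-! ### The cyclic group of order five -/

omit htor in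
theorem pw_mul_mod {x : H} (hx : x ^ 5 = 1) {E F G : Finset ℕ} {hE : 0 ∈ E} {hF : 0 ∈ F}
    {hG : 0 ∈ G} (h1 : ∀ i ∈ E, ∀ j ∈ F, (i + j) % 5 ∈ G)
    (h2 : ∀ g ∈ G, ∃ i ∈ E, ∃ j ∈ F, (i + j) % 5 = g) :
    pw x E hE * pw x F hF = pw x G hG := by
  have hred : ∀ i : ℕ, x ^ (i % 5) = x ^ i := by
    intro i
    conv_rhs => rw [← Nat.div_add_mod i 5, pow_add, pow_mul, hx, one_pow, one_mul]
  refine pw_mul_eq ?_ ?_
  · intro i hi j hj
    exact ⟨_, h1 i hi j hj, hred _⟩
  · intro g hg
    obtain ⟨i, hi, j, hj, hij⟩ := h2 g hg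
    exact ⟨i, hi, j, hj, by rw [← hij, hred]⟩

/-- the subsets of `{0,…,4}` that we use as factors -/
def LL : List (Finset ℕ) := [{0, 1}, {0, 2}, {0, 3}, {0, 4}, {0, 1, 2, 3}]

omit htor in
theorem five_decide : ∀ E ∈ (Finset.range 5).powerset, 0 ∈ E → 1 ∈ E → E ≠ {0, 1} →
    ∃ E1 ∈ LL, ∃ E2 ∈ LL, 0 ∈ E1 ∧ 0 ∈ E2 ∧ E1 ≠ E ∧ E2 ≠ E ∧ E1 ⊆ Finset.range 5 ∧
      E2 ⊆ Finset.range 5 ∧
      (∀ i ∈ E1, ∀ j ∈ E2, (i + j) % 5 ∈ E) ∧ (∀ g ∈ E, ∃ i ∈ E1, ∃ j ∈ E2, (i + j) % 5 = g) := by
  decide

theorem five_gen {h : H} (hn : orderOf h = 5) (hcyc : ∀ a : H, ∃ i : ℕ, a = h ^ i) {x : H}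
    (hx : x ≠ 1) : orderOf x = 5 ∧ ∀ a : H, ∃ i : ℕ, a = x ^ i := by
  have h5 : h ^ 5 = 1 := by rw [← hn]; exact pow_orderOf_eq_one h
  have hred : ∀ i : ℕ, h ^ (i % 5) = h ^ i := by
    intro i
    conv_rhs => rw [← Nat.div_add_mod i 5, pow_add, pow_mul, h5, one_pow, one_mul]
  obtain ⟨i, rfl⟩ := hcyc x
  have hi : i % 5 ≠ 0 := by
    intro h0
    apply hx
    rw [← hred, h0, pow_zero]
  refine ⟨?_, ?_⟩
  · have h1 : orderOf (h ^ i) ∣ 5 := orderOf_dvd_of_pow_eq_one (by
      rw [← pow_mul, mul_comm, pow_mul, h5, one_pow])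
    rcases (Nat.dvd_prime (by norm_num)).1 h1 with h2 | h2
    · exact absurd (orderOf_eq_one_iff.1 h2) hx
    · exact h2
  · intro a
    obtain ⟨j, rfl⟩ := hcyc a
    -- solve `i * t ≡ j`
    obtain ⟨t, ht⟩ : ∃ t, (i * t) % 5 = j % 5 := by
      have key : ∀ u < 5, u ≠ 0 → ∀ v < 5, ∃ t < 5, (u * t) % 5 = v := by decide
      obtain ⟨t, _, ht⟩ := key (i % 5) (Nat.mod_lt _ (by norm_num)) hi (j % 5)
        (Nat.mod_lt _ (by norm_num))
      exact ⟨t, by rw [Nat.mul_mod, ← ht, Nat.mul_mod (i % 5) t, Nat.mod_mod]⟩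
    exact ⟨t, by rw [← pow_mul, ← hred j, ← ht, hred]⟩

theorem five_irr {h : H} (hn : orderOf h = 5) (hcyc : ∀ a : H, ∃ i : ℕ, a = h ^ i)
    {A : PFin H} (hA : Irr A) : ∃ x, x ≠ 1 ∧ A = pair x := by
  obtain ⟨x, hxA, hx⟩ : ∃ x ∈ A, x ≠ 1 := by
    by_contra hcon; push Not at hcon; exact (irr_iff.1 hA).1 (eq_one_iff.2 hcon)
  obtain ⟨hn', hcyc'⟩ := five_gen htor hn hcyc hx
  have h5 : x ^ 5 = 1 := by rw [← hn']; exact pow_orderOf_eq_one x
  have hred : ∀ i : ℕ, x ^ (i % 5) = x ^ i := by
    intro i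
    conv_rhs => rw [← Nat.div_add_mod i 5, pow_add, pow_mul, h5, one_pow, one_mul]
  have hinj : ∀ i j : ℕ, i < 5 → j < 5 → x ^ i = x ^ j → i = j := by
    intro i j hi hj hij
    have := mod_lemma htor hij (by omega) (by omega)
    omega
  classical
  let E : Finset ℕ := (Finset.range 5).filter fun i => x ^ i ∈ A
  have hE : ∀ i, i ∈ E ↔ i < 5 ∧ x ^ i ∈ A := fun i => by rw [Finset.mem_filter, Finset.mem_range]
  have hE0 : 0 ∈ E := (hE 0).2 ⟨by norm_num, by rw [pow_zero]; exact one_mem A⟩
  have hAE : A = pw x E hE0 := by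
    apply ext'
    intro a
    rw [mem_pw]
    constructor
    · intro ha
      obtain ⟨i, rfl⟩ := hcyc' a
      exact ⟨i % 5, (hE _).2 ⟨Nat.mod_lt _ (by norm_num), by rw [hred]; exact ha⟩, hred i⟩
    · rintro ⟨i, hi, rfl⟩
      exact ((hE i).1 hi).2
  have hpwinj : ∀ (E1 E2 : Finset ℕ) (h1 : 0 ∈ E1) (h2 : 0 ∈ E2), E1 ⊆ Finset.range 5 →
      E2 ⊆ Finset.range 5 → pw x E1 h1 = pw x E2 h2 → E1 = E2 := by
    intro E1 E2 h1 h2 hs1 hs2 heq
    ext i
    constructor
    · intro hi
      have : x ^ i ∈ pw x E2 h2 := by rw [← heq]; exact ⟨i, hi, rfl⟩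
      obtain ⟨j, hj, hj2⟩ := this
      have := hinj j i (Finset.mem_range.1 (hs2 hj)) (Finset.mem_range.1 (hs1 hi)) hj2
      rwa [← this]
    · intro hi
      have : x ^ i ∈ pw x E1 h1 := by rw [heq]; exact ⟨i, hi, rfl⟩
      obtain ⟨j, hj, hj2⟩ := this
      have := hinj j i (Finset.mem_range.1 (hs1 hj)) (Finset.mem_range.1 (hs2 hi)) hj2
      rwa [← this]
  refine ⟨x, hx, ?_⟩
  by_cases hE01 : E = {0, 1}
  · rw [hAE, pair_eq_pw]
    congr 1
  · exfalso
    obtain ⟨E1, _, E2, _, h01, h02, hne1, hne2, hs1, hs2, hc1, hc2⟩ :=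
      five_decide E (Finset.mem_powerset.2 (Finset.filter_subset _ _)) hE0
        ((hE 1).2 ⟨by norm_num, by rw [pow_one]; exact hxA⟩) hE01
    have hprod : pw x E1 h01 * pw x E2 h02 = pw x E hE0 := pw_mul_mod h5 hc1 hc2
    have hsE : E ⊆ Finset.range 5 := Finset.filter_subset _ _
    rcases (irr_iff.1 hA).2 _ _ (hAE.trans hprod.symm) with h3 | h3
    · rw [hAE] at h3
      exact hne1 (hpwinj _ _ _ _ hs1 hsE h3)
    · rw [hAE] at h3
      exact hne2 (hpwinj _ _ _ _ hs2 hsE h3)

theorem five_growth {h : H} (hn : orderOf h = 5) (hcyc : ∀ a : H, ∃ i : ℕ, a = h ^ i)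
    (w : List (PFin H)) (hw : ∀ a ∈ w, Irr a) (hne : ∃ a : H, ¬ a ∈ w.prod) :
    w.length + 1 ≤ (w.prod).1.ncard := by
  induction w with
  | nil =>
    have : (List.prod ([] : List (PFin H))).1 = {1} := rfl
    rw [this, Set.ncard_singleton]
    simp
  | cons a t ih =>
    have hsub : ∀ {x}, x ∈ t.prod → x ∈ (a :: t).prod := fun hx => by
      rw [List.prod_cons]; exact right_sub _ _ hx
    obtain ⟨z, hz⟩ := hne
    have h1 := ih (fun b hb => hw b (List.mem_cons_of_mem _ hb)) ⟨z, fun h2 => hz (hsub h2)⟩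
    -- `a * P ≠ P`
    obtain ⟨y, hy, hy1⟩ : ∃ y ∈ a, y ≠ 1 := by
      by_contra hcon; push Not at hcon
      exact (irr_iff.1 (hw a List.mem_cons_self)).1 (eq_one_iff.2 hcon)
    have hlt : (t.prod).1 ⊂ ((a :: t).prod).1 := by
      refine ⟨fun x hx => hsub hx, fun hsup => ?_⟩
      have hcl : ∀ i : ℕ, y ^ i ∈ t.prod := by
        intro i
        induction i with
        | zero => rw [pow_zero]; exact one_mem _
        | succ i ih =>
          apply hsup
          rw [pow_succ', List.prod_cons]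
          exact mem_mul.2 ⟨y, hy, _, ih, rfl⟩
      obtain ⟨i, rfl⟩ := (five_gen htor hn hcyc hy1).2 z
      exact hz (hsub (hcl i))
    have := Set.ncard_lt_ncard hlt ((a :: t).prod).2.1
    rw [List.length_cons]
    omega

theorem cyclic_five (hab : ¬ Absorb H) {h : H} (hcyc : ∀ a : H, ∃ i : ℕ, a = h ^ i)
    (hn : orderOf h = 5) {k : ℕ} (hk : 2 ≤ k) : IsInterval (unionLengths (PFin H) k) := by
  have h5 : h ^ 5 = 1 := by rw [← hn]; exact pow_orderOf_eq_one h
  have hh : h ≠ 1 := by
    rintro rfl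
    rw [orderOf_one] at hn
    omega
  have hpow : ∀ i, 0 < i → i < 5 → h ^ i ≠ 1 := by
    intro i h0 h1 hc
    have := mod_lemma htor (h := h) (a := i) (b := 0) (by rw [hc, pow_zero]) (by omega) (by omega)
    omega
  have pair_pw : ∀ i, 0 < i → i < 5 → pair (h ^ i) = pw h {0, i} (by simp) := by
    intro i _ _
    apply ext'
    intro a
    rw [mem_pair, mem_pw]
    constructor
    · rintro (rfl | rfl)
      · exact ⟨0, by simp, pow_zero h⟩
      · exact ⟨i, by simp, rfl⟩
    · rintro ⟨j, hj, rfl⟩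
      rw [Finset.mem_insert, Finset.mem_singleton] at hj
      rcases hj with rfl | rfl
      · left; exact pow_zero h
      · right; rfl
  have e12 : pair h * pair (h ^ 2) = pair h ^ 3 := by
    rw [pair_pow, pair_pw 2 (by norm_num) (by norm_num), pair_eq_pw]
    exact pw_mul_mod h5 (by decide) (by decide)
  have e3 : pair h ^ 3 * pair (h ^ 4) = pair h ^ 4 := by
    rw [pair_pow, pair_pow, pair_pw 4 (by norm_num) (by norm_num)]
    exact pw_mul_mod h5 (by decide) (by decide)
  have e4 : pair h ^ 4 * pair h = pair h ^ 4 := by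
    rw [pair_pow, pair_eq_pw]
    exact pw_mul_mod h5 (by decide) (by decide)
  have e5 : ∀ n, pair h ^ 4 * pair h ^ n = pair h ^ 4 := by
    intro n
    induction n with
    | zero => simp
    | succ n ih => rw [pow_succ (pair h) n, ← mul_assoc, ih, e4]
  -- length sets
  have l2 : 2 ∈ lengthSet (pair h ^ 3) := (mem_lengthSet (by norm_num)).2
    ⟨[pair h, pair (h ^ 2)], by
      intro a ha
      rcases List.mem_cons.1 ha with rfl | ha
      · exact irr_pair hh
      · rw [List.mem_singleton.1 ha]; exact irr_pair (hpow 2 (by norm_num) (by norm_num)), by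
      rw [List.prod_cons, List.prod_singleton, e12], rfl⟩
  have l3 : 3 ∈ lengthSet (pair h ^ 3) := (mem_lengthSet (by norm_num)).2
    ⟨List.replicate 3 (pair h), fun a ha => by
      rw [List.eq_of_mem_replicate ha]; exact irr_pair hh, List.prod_replicate _ _, rfl⟩
  have lall : ∀ l, 3 ≤ l → l ∈ lengthSet (pair h ^ 4) := by
    intro l hl
    refine (mem_lengthSet (by omega)).2
      ⟨[pair h, pair (h ^ 2), pair (h ^ 4)] ++ List.replicate (l - 3) (pair h), ?_, ?_, ?_⟩
    · intro a ha
      rcases List.mem_append.1 ha with ha | ha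
      · rcases List.mem_cons.1 ha with rfl | ha
        · exact irr_pair hh
        · rcases List.mem_cons.1 ha with rfl | ha
          · exact irr_pair (hpow 2 (by norm_num) (by norm_num))
          · rw [List.mem_singleton.1 ha]; exact irr_pair (hpow 4 (by norm_num) (by norm_num))
      · rw [List.eq_of_mem_replicate ha]; exact irr_pair hh
    · rw [List.prod_append, List.prod_replicate, List.prod_cons, List.prod_cons,
        List.prod_singleton, ← mul_assoc, e12, e3, e5]
    · simp; omega
  rcases Nat.lt_or_ge k 3 with hk3 | hk3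
  · -- `k = 2`
    have hk2 : k = 2 := by omega
    subst hk2
    have : unionLengths (PFin H) 2 = {l : ℕ | ((2 : ℕ) : ℕ∞) ≤ l ∧ (l : ℕ∞) ≤ ((3 : ℕ) : ℕ∞)} := by
      ext l
      simp only [Set.mem_ofPred_eq, Nat.cast_le]
      constructor
      · intro hl
        refine ⟨two_le_of_mem hab hk hl, ?_⟩
        have hl1 := two_le_of_mem hab hk hl
        obtain ⟨X, h2, h3⟩ := hl
        obtain ⟨w, hw, hprod, hlen⟩ := (mem_lengthSet (by norm_num)).1 h2
        obtain ⟨A, B, rfl⟩ := List.length_eq_two.1 hlen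
        obtain ⟨a, ha, rfl⟩ := five_irr htor hn hcyc (hw A (by simp))
        obtain ⟨b, hb, rfl⟩ := five_irr htor hn hcyc (hw B (by simp))
        have hcard : X.1.ncard ≤ 4 := by
          have hsub : X.1 ⊆ {1, a, b, a * b} := by
            intro x hx
            have hx' : x ∈ pair a * pair b := by
              rw [← hprod, List.prod_cons, List.prod_singleton] at hx
              exact hx
            obtain ⟨y, hy, z, hz, rfl⟩ := mem_mul.1 hx'
            rcases mem_pair.1 hy with rfl | rfl <;> rcases mem_pair.1 hz with rfl | rfl <;> simp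
          refine (Set.ncard_le_ncard hsub (by simp)).trans ?_
          refine (Set.ncard_insert_le _ _).trans ?_
          refine (Nat.add_le_add_right (Set.ncard_insert_le _ _) 1).trans ?_
          have := Set.ncard_insert_le b {a * b}
          rw [Set.ncard_singleton] at this
          omega
        obtain ⟨v, hv, hvprod, hvlen⟩ := (mem_lengthSet (by omega)).1 h3
        have hne : ∃ z : H, ¬ z ∈ v.prod := by
          by_contra hcon
          push Not at hcon
          rw [hvprod] at hcon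
          have h6 : (fun i => h ^ i) '' (Finset.range 5 : Set ℕ) ⊆ X.1 := by
            rintro _ ⟨i, _, rfl⟩; exact hcon _
          have h7 := Set.ncard_le_ncard h6 X.2.1
          rw [Set.InjOn.ncard_image, Set.ncard_coe_finset, Finset.card_range] at h7
          · omega
          · intro i hi j hj hij
            have hi' := Finset.mem_range.1 hi
            have hj' := Finset.mem_range.1 hj
            have := mod_lemma htor hij (by omega) (by omega)
            omega
        have h8 := five_growth htor hn hcyc v hv hne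
        rw [hvprod] at h8
        omega
      · rintro ⟨h1, h2⟩
        have : l = 2 ∨ l = 3 := by omega
        rcases this with rfl | rfl
        · exact ⟨_, l2, l2⟩
        · exact ⟨_, l2, l3⟩
    exact ⟨_, _, this⟩
  · have hsup : ∀ l, 3 ≤ l → l ∈ unionLengths (PFin H) k := fun l hl => ⟨_, lall k hk3, lall l hl⟩
    by_cases h2 : 2 ∈ unionLengths (PFin H) k
    · have : unionLengths (PFin H) k = {l : ℕ | 2 ≤ l} := by
        ext l
        refine ⟨fun hl => two_le_of_mem hab hk hl, fun hl => ?_⟩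
        rcases Nat.lt_or_ge l 3 with h3 | h3
        · have hl' : 2 ≤ l := hl
          have : l = 2 := by omega
          rw [this]; exact h2
        · exact hsup l h3
      rw [this]
      exact interval_ge 2
    · have : unionLengths (PFin H) k = {l : ℕ | 3 ≤ l} := by
        ext l
        refine ⟨fun hl => ?_, fun hl => hsup l hl⟩
        have h3 := two_le_of_mem hab hk hl
        by_contra h4
        have h5 : ¬ 3 ≤ l := h4
        have : l = 2 := by omega
        rw [this] at hl
        exact h2 hl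
      rw [this]
      exact interval_ge 3

end torsion

/-- **Q1.** For every monoid `H` and every `k ≥ 1` the union `𝒰_k` of the length sets containing
`k` in the reduced finitary power monoid of `H` is an interval. -/
theorem result (H : Type*) [Monoid H] (k : ℕ) (hk : 1 ≤ k) :
    IsInterval (unionLengths (PFin H) k) := by
  by_cases hab : Absorb H
  · exact absorb_interval hab hk
  by_cases htriv : ∀ a : H, a = 1
  · -- the trivial monoid
    have : unionLengths (PFin H) k = {l : ℕ | ((1 : ℕ) : ℕ∞) ≤ l ∧ (l : ℕ∞) ≤ ((0 : ℕ) : ℕ∞)} := by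
      ext l
      simp only [Set.mem_ofPred_eq, Nat.cast_le]
      constructor
      · rintro ⟨X, h1, h2⟩
        exfalso
        have hX : X = 1 := eq_one_iff.2 fun a _ => htriv a
        rw [hX] at h1
        have := lengthSet_one h1
        omega
      · rintro ⟨h1, h2⟩
        omega
    exact ⟨_, _, this⟩
  push Not at htriv
  obtain ⟨h0, hh0⟩ := htriv
  rcases Nat.lt_or_ge k 2 with hk1 | hk2
  · -- `k = 1`
    have hk1' : k = 1 := by omega
    subst hk1'
    have : unionLengths (PFin H) 1 =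
        {l : ℕ | ((1 : ℕ) : ℕ∞) ≤ l ∧ (l : ℕ∞) ≤ ((1 : ℕ) : ℕ∞)} := by
      ext l
      simp only [Set.mem_ofPred_eq, Nat.cast_le]
      constructor
      · rintro ⟨X, h1, h2⟩
        obtain ⟨w, hw, hprod, hlen⟩ := (mem_lengthSet le_rfl).1 h1
        obtain ⟨a, rfl⟩ := List.length_eq_one_iff.1 hlen
        have hX : Irr X := by
          rw [← hprod, List.prod_singleton]; exact hw a (List.mem_singleton_self a)
        have := length_of_irr hab hX h2
        omega
      · rintro ⟨h1, h2⟩
        have : l = 1 := by omega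
        subst this
        have h3 : 1 ∈ lengthSet (pair h0) := (mem_lengthSet le_rfl).2
          ⟨[pair h0], fun a ha => by rw [List.mem_singleton.1 ha]; exact irr_pair hh0,
            List.prod_singleton, rfl⟩
        exact ⟨_, h3, h3⟩
    exact ⟨_, _, this⟩
  -- `k ≥ 2`
  by_cases hinf : ∃ h : H, ∀ i j : ℕ, h ^ i = h ^ j → i = j
  · obtain ⟨h, hinj⟩ := hinf
    exact infinite_order hab hinj hk2
  push Not at hinf
  have htor : ∀ a : H, ∃ n, 0 < n ∧ a ^ n = 1 := by
    intro a
    obtain ⟨i, j, h1, h2⟩ := hinf a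
    rcases lt_or_gt_of_ne h2 with h3 | h3
    · exact torsion_of_not_inj hab h3 h1
    · exact torsion_of_not_inj hab h3 h1.symm
  by_cases hcyc : ∀ a : H, ∃ i : ℕ, a = h0 ^ i
  · -- `H` is cyclic, of odd order
    have hpos := orderOf_pos'' htor h0
    rcases Nat.even_or_odd' (orderOf h0) with ⟨m, hm | hm⟩
    · -- even order: there is an involution
      exfalso
      have h1 : h0 ^ m * h0 ^ m = 1 := by
        rw [← pow_add, ← two_mul, ← hm]; exact pow_orderOf_eq_one h0
      have h2 := no_invol hab h1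
      have h3 := Nat.le_of_dvd (by omega) (orderOf_dvd_of_pow_eq_one h2)
      omega
    · have hm0 : m ≠ 0 := by
        rintro rfl
        exact hh0 (orderOf_eq_one_iff.1 hm)
      by_cases hm2 : m = 2
      · subst hm2
        exact cyclic_five htor hab hcyc hm hk2
      · exact cyclic_big htor hab hh0 hcyc hm (by omega) hk2
  · push Not at hcyc
    obtain ⟨g, hg⟩ := hcyc
    exact noncyclic htor hab hh0 hg hk2

end Pool.Agent.Results.MP_43520b_al.Q1Intervals
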