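import Pool.Agent.Q95.PowerMonoid
import Mathlib.Data.Fintype.Card
import Mathlib.Data.Fin.VecNotation
import Mathlib.Data.List.Nodup
import Batteries.Data.Nat.Bitwise

/-!
# MP_43520b_al, Q2: a union of sets of minimal factorization lengths that is not an interval

We give a monoid `H` with 7 elements such that `𝒰ᵐ_4` of the reduced power monoid of `H` contains
`2` and `4` but not `3`.
-/

namespace Pool.Agent.Results.MP_43520b_al.Q2MinimalGap

open Pool.Agent.Q95.PowerMonoid Pool.Agent.Q95.PowerMonoid.PFin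

/-- The multiplication table; `0` is the identity. -/
def tbl : Fin 7 → Fin 7 → Fin 7 :=
  ![![0, 1, 2, 3, 4, 5, 6],
    ![1, 1, 1, 1, 1, 1, 1],
    ![2, 1, 1, 1, 1, 1, 2],
    ![3, 1, 1, 1, 1, 2, 2],
    ![4, 4, 4, 4, 4, 4, 4],
    ![5, 4, 4, 4, 4, 4, 5],
    ![6, 1, 2, 3, 1, 2, 6]]

/-- A monoid with seven elements. -/
structure H7 : Type where
  val : Fin 7
  deriving DecidableEq

instance : Monoid H7 where
  mul a b := ⟨tbl a.val b.val⟩
  one := ⟨0⟩
  mul_assoc a b c := by
    have h : ∀ a b c : Fin 7, tbl (tbl a b) c = tbl a (tbl b c) := by decide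
    exact congrArg H7.mk (h a.val b.val c.val)
  one_mul a := by
    have h : ∀ a : Fin 7, tbl 0 a = a := by decide
    exact congrArg H7.mk (h a.val)
  mul_one a := by
    have h : ∀ a : Fin 7, tbl a 0 = a := by decide
    exact congrArg H7.mk (h a.val)

theorem card_H7 : Nat.card H7 = 7 := by
  have e : H7 ≃ Fin 7 := ⟨H7.val, H7.mk, fun _ => rfl, fun _ => rfl⟩
  rw [Nat.card_congr e, Nat.card_eq_fintype_card, Fintype.card_fin]

/-- `h ∈ {0} ∪ {i + 1 : bit i of m is set}` -/
def memB (m : ℕ) (h : Fin 7) : Bool := h.val == 0 || m.testBit (h.val - 1)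

/-- the products `h * m`, packed in one number -/
def rowTab : ℕ := 0x9e79e78e38e39e69e68e28e29e79658e38619e69648e28609e79e78e38e39e69e68e28e29e79658e38619e69648e28606186186186186186186186186186186186186186186186106186186186186186186186186186186186186186186186102082082082082082082082082082082082082082082082082082082082082082082082082082082082082082082082081c71c71c71c71c71c71c71c61c71c71c71c71c71c71c71c61c71c71c71c71c71c71c71c61451451451451451451451440c30c30c30c30c30c30c30c30c30c30c30c30c30c30c30c20c30c30c30c30c30c30c30c30c30c30c30c30c30c30c30c2041041041041041041041041041041041041041041041041041041041041041041041041041041041041041041041041ffef7cefae78df6d74cf2c70beeb6caeaa689e69648e28607de75c6da6585d65544d24503ce34c2ca2481c61440c2040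

/-- the set `h * m` -/
def row (a m : ℕ) : ℕ := (rowTab >>> (6 * (64 * a + m))) % 64

/-- the products of sets, packed in one number -/
def prodTab : ℕ :=
  0xfffffffffffffffffffffffffffffffffffffffffffffffffffffffffffffffffffffffffffffffffffffffffffffffffffffffffffffffffffffffffffffffffffffffffffffffefffffffffffffffffffffffffffffffffffffffffffffffeffffffffffffffffffffffffffffffffffffffffffffffffffffffffffffffffffffffffffff7dffff7dffff7dffff7dfffffffffffffffffffffffefffffffffffffffffffffffefffffffffffffffffffffffeffff7dffff7dffff7dffff7cffffffefbefbffffffefbefbffffffefbefbffffffefbefbffffffefbefbffffffefbefbffffffefbefbffffffefbefbffffffefbefbffffffefbefbffffffefbefbffffffefbefaffffffefbefbffffffefbefbffffffefbefbffffffefbefaffffffefbefbffffffefbefbffff7defbe79ffff7defbe79ffffffefbefbffffffefbefbffff7defbe79ffff7defbe79ffffffefbefbffeffeefaefaffff7defbe79ffef7cefae78ffffffefbefbffeffeefaefaffff7defbe79ffef7cefae78fffffffffffffffffffffffffffffffffffffffffffffff7fffff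ffffffffffffffffffffffffffffffffffffffffff7fffffffffffffffffffffffffffffffffffffffffffffff6fffffffffffffffffffffffffffffffffffffffffffffff6fffffffffffffffffffffffffffffffffffffffffffffff7ffffffffffffffffffffffffffff7dffff7dffff7dffff75fffffffffffffffffffffffefffffffffffffffffffffff6fffffffffffffffffffffffeffff7dffff7dffff7dffff74ffffffefbefbffffffefbefbffffffefbefbffffffefbef3ffffffefbefbffffffefbefbffffffefbefbffffffefbef3ffffffefbefbffffffefbefbffffffefbefbffffffefbef2ffffffefbefbffffffefbefbffffffefbefbffffffefbef2ffffffefbefbffffffefbefbffff7defbe79ffff7defbe71ffffffefbefbffffffefbefbffff7defbe79ffff7defbe71ffffffefbefbffeffeefaefaffff7defbe79ffef7cefae70ffffffefbefbffeffeefaefaffff7defbe79ffef7cefae70ffffffffffffffffffffffffbefbefbefbefbefbefbefbefffffffffffffffffffffffffbefbefbefbefbefbefbefbefffffffffffffffffffffffffbefbefbefbefbefbefbefbeeffffffffffffffffffffffffbefbefbefbefbefbefbefbeeffffffffffffffffffffffffbefbefbefbefbefbefbefbefffffffffffffffffffffffffbef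b6dbefb6dbefb6dbefb6dfffffffffffffffffffffffebefbefbefbefbefbefbefbeefffffffffffffffffffffffebefb6dbefb6dbefb6dbefb6cffffffefbefbffffffefbefbbefbefaebaebbefbefaebaebffffffefbefbffffffefbefbbefbefaebaebbefbefaebaebffffffefbefbffffffefbefbbefbefaebaebbefbefaebaeaffffffefbefbffffffefbefbbefbefaebaebbefbefaebaeaffffffefbefbffffffefbefbbefb6daeba69befb6daeba69ffffffefbefbffffffefbefbbefb6daeba69befb6daeba69ffffffefbefbffeffeefaefabefb6daeba69beeb6caeaa68ffffffefbefbffeffeefaefabefb6daeba69beeb6caeaa68ffffffffffffdf7df7df7df7befbefbefbef9e79e79e79e7ffffffffffffdf7df7df7df7befbefbefbef9e79e79e79e7ffffffffffffdf7df7df7df7befbefbefbef9e79e79e79e6ffffffffffffdf7df7df7df7befbefbefbef9e79e79e79e6ffffffffffffdf7df7df7df7befbefbefbef9e79e79e79e7ffffffffffffdf7df7df7df7befb6dbefb6d9e79659e7965ffffffffffffdf7df7df7df6befbefbefbef9e79e79e79e6ffffffffffffdf7df7df7df6befb6dbefb6d9e79659e7964ffffffefbefbdf7df7cf3cf3befbefaebaeb9e79e78e38e3ffffffefbefbdf7df7cf3cf3befbefaebaeb9e79e78e38e3f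fffffefbefbdf7df7cf3cf3befbefaebaeb9e79e78e38e2ffffffefbefbdf7df7cf3cf3befbefaebaeb9e79e78e38e2ffffffefbefbdf7df7cf3cf3befb6daeba699e79658e3861ffffffefbefbdf7df7cf3cf3befb6daeba699e79658e3861ffffffefbefbdf6df6cf2cf2befb6daeba699e69648e2860ffffffefbefbdf6df6cf2cf2befb6daeba699e69648e2860ffffffffffffffffffffffffffffffffffffffffffffffff7df7df7df7df7df7df7df7df7df7df7df7df7df7df7df7dffffffffffffffffffffffffffffffffffffffffffffffffe7df7df7df7df7df7df7df7df7df7df7df7df7df7df7df7deffffffffffffffffffffffffffffffffffffffffffffffff7df7df7df7df7df7df7df7df7df75d7df75d7df75d7df75dfffffffffffffffffffffffefffffffffffffffffffffffe7df7df7df7df7df7df7df7de7df75d7df75d7df75d7df75cffffffefbefbffffffefbefbffffffefbefbffffffefbefb7df7df6db6db7df7df6db6db7df7df6db6db7df7df6db6dbffffffefbefbffffffefbefbffffffefbefbffffffefbefa7df7df6db6db7df7df6db6db7df7df6db6db7df7df6db6daffff7defbe79ffff7defbe79ffff7defbe79ffff7defbe797df75d6db6597df75d6db6597df75d6db6597df75d6db659ffef7cefae78ffef7cefae7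8ffef7cefae78ffef7cefae787de75c6da6587de75c6da6587de75c6da6587de75c6da658fffffffffffffffffffffffffffffffffffffffffffffff77df7df7df7df7df7df7df7df7df7df7df7df7df7df7df7d7fffffffffffffffffffffffffffffffffffffffffffffff67df7df7df7df7df7df7df7df7df7df7df7df7df7df7df7d6fffffffffffffffffffffffffffffffffffffffffffffff77df7df7df7df7df7df7df7df7df75d7df75d7df75d7df755fffffffffffffffffffffffefffffffffffffffffffffff67df7df7df7df7df7df7df7de7df75d7df75d7df75d7df754ffffffefbefbffffffefbefbffffffefbefbffffffefbef37df7df6db6db7df7df6db6db7df7df6db6db7df7df6db6d3ffffffefbefbffffffefbefbffffffefbefbffffffefbef27df7df6db6db7df7df6db6db7df7df6db6db7df7df6db6d2ffff7defbe79ffff7defbe79ffff7defbe79ffff7defbe717df75d6db6597df75d6db6597df75d6db6597df75d6db651ffef7cefae78ffef7cefae78ffef7cefae78ffef7cefae707de75c6da6587de75c6da6587de75c6da6587de75c6da650ffffffffffffffffffffffffbefbefbefbefbefbefbefbef7df7df7df7df7df7df7df7df3cf3cf3cf3cf3cf3cf3cf3cfffffffffffffffffffffffffbefbefbefbefbefbefbef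bee7df7df7df7df7df7df7df7df3cf3cf3cf3cf3cf3cf3cf3ceffffffffffffffffffffffffbefbefbefbefbefbefbefbef7df7df7df7df7df7df7df7df3cf34d3cf34d3cf34d3cf34dfffffffffffffffffffffffebefbefbefbefbefbefbefbee7df7df7df7df7df7df7df7de3cf34d3cf34d3cf34d3cf34cffffffefbefbffffffefbefbbefbefaebaebbefbefaebaeb7df7df6db6db7df7df6db6db3cf3cf2cb2cb3cf3cf2cb2cbffffffefbefbffffffefbefbbefbefaebaebbefbefaebaea7df7df6db6db7df7df6db6db3cf3cf2cb2cb3cf3cf2cb2caffff7defbe79ffff7defbe79befb6daeba69befb6daeba697df75d6db6597df75d6db6593cf34d2cb2493cf34d2cb249ffef7cefae78ffef7cefae78beeb6caeaa68beeb6caeaa687de75c6da6587de75c6da6583ce34c2ca2483ce34c2ca248ffffffffffffdf7df7df7df7befbefbefbef9e79e79e79e77df7df7df7df5d75d75d75d73cf3cf3cf3cf1c71c71c71c7ffffffffffffdf7df7df7df7befbefbefbef9e79e79e79e67df7df7df7df5d75d75d75d73cf3cf3cf3cf1c71c71c71c6ffffffffffffdf7df7df7df7befbefbefbef9e79e79e79e77df7df7df7df5d75d75d75d73cf34d3cf34d1c71451c7145ffffffffffffdf7df7df7df6befbefbefbef9e79e79e79e67df7df7df7df5d75d75d75d63cf34d3cf34d1c71451c7144ffffffefbefbdf7df7cf3cf3befbefaebaeb9e79e78e38e37df7df6db6db5d75d74d34d33cf3cf2cb2cb1c71c70c30c3ffffffefbefbdf7df7cf3cf3befbefaebaeb9e79e78e38e27df7df6db6db5d75d74d34d33cf3cf2cb2cb1c71c70c30c2ffff7defbe79df7d75cf3c71befb6daeba699e79658e38617df75d6db6595d75554d34513cf34d2cb2491c71450c3041ffef7cefae78df6d74cf2c70beeb6caeaa689e69648e28607de75c6da6585d65544d24503ce34c2ca2481c61440c2040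

/-- the product of two sets -/
def P (m m' : ℕ) : ℕ := (prodTab >>> (6 * (64 * m + m'))) % 64

theorem row_spec : ∀ a : Fin 7, ∀ m : Fin 64, ∀ h : Fin 7, h ≠ 0 →
    ((memB (row a.val m.val) h) = (decide (∃ b : Fin 7, memB m.val b = true ∧ tbl a b = h))) := by
  decide +kernel

theorem P_spec : ∀ m m' : Fin 64, ∀ h : Fin 7, h ≠ 0 →
    ((memB (P m.val m'.val) h) =
      (decide (∃ a : Fin 7, memB m.val a = true ∧ memB (row a.val m'.val) h = true))) := by
  decide +kernel

/-! ### The coding of subsets by numbers below 64 -/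

instance : Finite H7 := Finite.of_injective H7.val (fun a b h => by
  cases a; cases b; exact congrArg H7.mk h)

/-- the set coded by `m` -/
def ofMask (m : ℕ) : PFin H7 := ⟨{h | memB m h.val = true}, Set.toFinite _, rfl⟩

theorem mem_ofMask {m : ℕ} {h : H7} : h ∈ ofMask m ↔ memB m h.val = true := Iff.rfl

theorem memB_zero (m : ℕ) : memB m 0 = true := rfl

theorem ofMask_mul {m m' : ℕ} (hm : m < 64) (hm' : m' < 64) :
    ofMask m * ofMask m' = ofMask (P m m') := by
  apply ext'
  rintro ⟨h⟩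
  rw [mem_ofMask]
  by_cases hh : h = 0
  · subst hh
    exact ⟨fun _ => rfl, fun _ => one_mem (ofMask m * ofMask m')⟩
  · have h1 := P_spec ⟨m, hm⟩ ⟨m', hm'⟩ h hh
    rw [mem_mul]
    show _ ↔ memB (P m m') h = true
    rw [show memB (P m m') h = _ from h1, decide_eq_true_eq]
    constructor
    · rintro ⟨⟨a⟩, ha, ⟨b⟩, hb, hab⟩
      have hab' : tbl a b = h := congrArg H7.val hab
      refine ⟨a, ha, ?_⟩
      have h2 := row_spec a ⟨m', hm'⟩ h hh
      show memB (row a.val m') h = true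
      rw [show memB (row a.val m') h = _ from h2, decide_eq_true_eq]
      exact ⟨b, hb, hab'⟩
    · rintro ⟨a, ha, h3⟩
      have h2 := row_spec a ⟨m', hm'⟩ h hh
      have h4 : memB (row a.val m') h = true := h3
      rw [show memB (row a.val m') h = _ from h2, decide_eq_true_eq] at h4
      obtain ⟨b, hb, hab⟩ := h4
      exact ⟨⟨a⟩, ha, ⟨b⟩, hb, congrArg H7.mk hab⟩

theorem P_lt (m m' : ℕ) : P m m' < 64 := Nat.mod_lt _ (by decide)

theorem memB_inj : ∀ m m' : Fin 64, (∀ h : Fin 7, memB m.val h = memB m'.val h) → m = m' := by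
  decide +kernel

theorem ofMask_inj {m m' : ℕ} (hm : m < 64) (hm' : m' < 64) (h : ofMask m = ofMask m') :
    m = m' := by
  have h1 := memB_inj ⟨m, hm⟩ ⟨m', hm'⟩ (fun i => by
    have h2 : (⟨i⟩ : H7) ∈ ofMask m ↔ (⟨i⟩ : H7) ∈ ofMask m' := by rw [h]
    rw [mem_ofMask, mem_ofMask] at h2
    exact Bool.eq_iff_iff.2 h2)
  exact congrArg Fin.val h1

open Classical in
theorem ofMask_surj (X : PFin H7) : ∃ m, m < 64 ∧ X = ofMask m := by
  let f : Fin 6 → Bool := fun i => decide ((⟨i.succ⟩ : H7) ∈ X)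
  have hlt : Nat.ofBits f < 64 := Nat.ofBits_lt_two_pow f
  refine ⟨Nat.ofBits f, hlt, ext' ?_⟩
  rintro ⟨h⟩
  rw [mem_ofMask]
  refine Fin.cases ?_ (fun i => ?_) h
  · exact ⟨fun _ => rfl, fun _ => one_mem X⟩
  · have h1 : memB (Nat.ofBits f) i.succ = f i := by
      unfold memB
      have h2 : ((i.succ : Fin 7).val == 0) = false := by simp
      have h3 : (i.succ : Fin 7).val - 1 = i.val := by simp
      rw [h2, h3, Bool.false_or, Nat.testBit_ofBits_lt f i.val i.isLt]
    show _ ↔ memB (Nat.ofBits f) i.succ = true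
    rw [h1]
    simp [f]

/-- the product of a list of codes -/
def prodL (l : List ℕ) : ℕ := l.foldl P 0

theorem P_zero : ∀ m : Fin 64, P 0 m.val = m.val := by decide +kernel

theorem prod_foldl (l : List ℕ) (hl : ∀ m ∈ l, m < 64) (s : ℕ) (hs : s < 64) :
    ofMask s * (l.map ofMask).prod = ofMask (l.foldl P s) := by
  induction l generalizing s with
  | nil => simp
  | cons a l ih =>
    rw [List.map_cons, List.prod_cons, ← mul_assoc,
      ofMask_mul hs (hl a List.mem_cons_self), List.foldl_cons]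
    exact ih (fun m hm => hl m (List.mem_cons_of_mem _ hm)) _ (P_lt _ _)

theorem ofMask_zero : ofMask 0 = 1 := by
  rw [eq_one_iff]
  rintro ⟨h⟩ hh
  rw [mem_ofMask] at hh
  have key : ∀ h : Fin 7, memB 0 h = true → h = 0 := by decide
  exact congrArg H7.mk (key h hh)

theorem prod_map (l : List ℕ) (hl : ∀ m ∈ l, m < 64) : (l.map ofMask).prod = ofMask (prodL l) := by
  have := prod_foldl l hl 0 (by decide)
  rwa [ofMask_zero, one_mul] at this

theorem prodL_lt (l : List ℕ) : prodL l < 64 := by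
  unfold prodL
  have : ∀ s, s < 64 → l.foldl P s < 64 := by
    induction l with
    | nil => intro s hs; exact hs
    | cons a l ih => intro s _; exact ih _ (P_lt _ _)
  exact this 0 (by decide)

/-! ### The irreducibles -/

/-- the codes of the irreducibles -/
def irrs : List ℕ := [1, 2, 4, 6, 8, 16, 18, 20, 32, 52]

/-- factors showing that the other sets are reducible -/
def wit : List (ℕ × ℕ) :=
  [(0, 0), (0, 0), (0, 0), (1, 2), (0, 0), (1, 4), (0, 0), (1, 6), (0, 0), (1, 8), (8, 2), (1,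
  10), (8, 4), (1, 12), (8, 6), (1, 14), (0, 0), (1, 16), (0, 0), (1, 18), (0, 0), (1, 20), (4,
  16), (1, 22), (8, 16), (1, 24), (8, 18), (1, 26), (8, 20), (1, 28), (8, 22), (1, 30), (0, 0),
  (1, 32), (2, 32), (1, 34), (32, 4), (1, 36), (4, 32), (1, 38), (8, 32), (1, 40), (8, 34), (1,
  42), (8, 36), (1, 44), (8, 38), (1, 46), (16, 32), (1, 48), (18, 32), (1, 50), (0, 0), (1, 52),
  (4, 48), (1, 54), (8, 48), (1, 56), (8, 50), (1, 58), (8, 52), (1, 60), (8, 54), (1, 62)]

theorem wit_spec : ∀ m : Fin 64, m.val ∉ irrs → m.val = 0 ∨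
    ((wit.getD m.val (0, 0)).1 < 64 ∧ (wit.getD m.val (0, 0)).2 < 64 ∧
      P (wit.getD m.val (0, 0)).1 (wit.getD m.val (0, 0)).2 = m.val ∧
      (wit.getD m.val (0, 0)).1 ≠ m.val ∧ (wit.getD m.val (0, 0)).2 ≠ m.val) := by
  decide +kernel

theorem mem_irrs {m : ℕ} (hm : m < 64) (h : Irr (ofMask m)) : m ∈ irrs := by
  by_contra hn
  rw [irr_iff] at h
  rcases wit_spec ⟨m, hm⟩ hn with h0 | ⟨h1, h2, h3, h4, h5⟩
  · have h0' : m = 0 := h0
    rw [h0'] at h
    exact h.1 ofMask_zero
  · have h3' : P (wit.getD m (0, 0)).1 (wit.getD m (0, 0)).2 = m := h3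
    rcases h.2 _ _ (by rw [ofMask_mul h1 h2, h3']) with h6 | h6
    · exact h4 (ofMask_inj h1 hm h6)
    · exact h5 (ofMask_inj h2 hm h6)

theorem irr_check : ∀ m ∈ [4, 16, 32, 52], ∀ b c : Fin 64, P b.val c.val = m →
    b.val = m ∨ c.val = m := by
  decide +kernel

theorem irr_of_mem {m : ℕ} (hm : m ∈ [4, 16, 32, 52]) : Irr (ofMask m) := by
  have hlt : ∀ m ∈ [4, 16, 32, 52], m < 64 ∧ m ≠ 0 := by decide
  rw [irr_iff]
  refine ⟨fun h => (hlt m hm).2 (ofMask_inj (hlt m hm).1 (by decide) (h.trans ofMask_zero.symm)),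
    ?_⟩
  intro B C hBC
  obtain ⟨b, hb, rfl⟩ := ofMask_surj B
  obtain ⟨c, hc, rfl⟩ := ofMask_surj C
  rw [ofMask_mul hb hc] at hBC
  have h1 := ofMask_inj (hlt m hm).1 (P_lt b c) hBC
  rcases irr_check m hm ⟨b, hb⟩ ⟨c, hc⟩ h1.symm with h2 | h2
  · left; rw [show b = m from h2]
  · right; rw [show c = m from h2]

/-- every word of irreducibles comes from a word of codes -/
theorem word_codes (w : List (PFin H7)) (hw : ∀ a ∈ w, Irr a) :
    ∃ l : List ℕ, w = l.map ofMask ∧ ∀ m ∈ l, m ∈ irrs := by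
  induction w with
  | nil => exact ⟨[], rfl, by simp⟩
  | cons a w ih =>
    obtain ⟨l, rfl, hl⟩ := ih fun b hb => hw b (List.mem_cons_of_mem _ hb)
    obtain ⟨m, hm, rfl⟩ := ofMask_surj a
    refine ⟨m :: l, rfl, ?_⟩
    intro b hb
    rcases List.mem_cons.1 hb with rfl | hb
    · exact mem_irrs hm (hw _ List.mem_cons_self)
    · exact hl b hb

theorem irrs_lt : ∀ m ∈ irrs, m < 64 := by decide

/-! ### Non-minimality -/

/-- A factorization is not minimal if some shorter arrangement of its letters has the same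
product. -/
theorem not_minimal {l : List ℕ} (hl : ∀ m ∈ l, m ∈ irrs) {X : PFin H7}
    (idx : List (Fin l.length)) (hn : idx.Nodup) (hlen : idx.length < l.length)
    (hp : prodL (idx.map l.get) = prodL l) :
    ¬ IsMinimalFactorization (l.map ofMask) X := by
  rintro ⟨⟨hirr, hprod⟩, hmin⟩
  apply hmin
  have hlt : ∀ m ∈ l, m < 64 := fun m hm => irrs_lt m (hl m hm)
  refine ⟨(idx.map l.get).map ofMask, ⟨?_, ?_⟩, ?_, ?_⟩
  · intro a ha
    obtain ⟨m, hm, rfl⟩ := List.mem_map.1 ha
    obtain ⟨i, _, rfl⟩ := List.mem_map.1 hm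
    exact hirr _ (List.mem_map_of_mem (List.get_mem l i))
  · rw [prod_map, hp, ← prod_map l hlt, hprod]
    intro m hm
    obtain ⟨i, _, rfl⟩ := List.mem_map.1 hm
    exact hlt _ (List.get_mem l i)
  · simpa using hlen
  · have e1 : ((idx.map l.get).map ofMask).length = idx.length := by simp
    have e2 : (l.map ofMask).length = l.length := by simp
    refine ⟨fun i => (idx.get (i.cast e1)).cast e2.symm, ?_, ?_⟩
    · intro i j hij
      have h1 : idx.get (i.cast e1) = idx.get (j.cast e1) := by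
        have := congrArg (Fin.cast e2) hij
        simpa using this
      have h2 := List.nodup_iff_injective_get.1 hn h1
      exact Fin.cast_injective _ h2
    · intro i
      rw [equ_iff]
      simp

/-- index triples, in the order in which they are tried -/
def cands4 : List (List (Fin 4)) :=
  [[0, 2, 3], [1, 2, 3], [0, 1, 3], [3, 2, 1], [1, 0, 2], [2, 0, 1], [3, 1, 0], [2, 3, 0], [0, 1,
  2], [2, 1, 3], [3, 0, 2], [1, 0, 3], [1, 2, 0], [0, 2, 1], [2, 1, 0], [3, 0, 1], [0, 3, 2], [2,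
  0, 3], [3, 1, 2], [1, 3, 2], [3, 2, 0], [1, 3, 0], [2, 3, 1], [0, 3, 1]]

/-- index pairs -/
def cands3 : List (List (Fin 3)) := [[1, 2], [0, 1], [2, 0], [2, 1]]

/-- the check for words of length four -/
def chk4 (a b c d : ℕ) : Bool :=
  prodL [a, b, c, d] == 61 ||
    cands4.any fun ix => prodL (ix.map [a, b, c, d].get) == prodL [a, b, c, d]

/-- the check for words of length three -/
def chk3 (a b c : ℕ) : Bool :=
  prodL [a, b, c] != 61 ||
    cands3.any fun ix => prodL (ix.map [a, b, c].get) == prodL [a, b, c]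

theorem chk4_all : ∀ a ∈ irrs, ∀ b ∈ irrs, ∀ c ∈ irrs, ∀ d ∈ irrs, chk4 a b c d = true := by
  decide +kernel

theorem chk3_all : ∀ a ∈ irrs, ∀ b ∈ irrs, ∀ c ∈ irrs, chk3 a b c = true := by
  decide +kernel

theorem minimal4 {w : List (PFin H7)} {X : PFin H7} (h : IsMinimalFactorization w X)
    (hlen : w.length = 4) : X = ofMask 61 := by
  obtain ⟨l, rfl, hl⟩ := word_codes w h.1.1
  rw [List.length_map] at hlen
  have hX : X = ofMask (prodL l) := by
    rw [← prod_map l fun m hm => irrs_lt m (hl m hm)]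
    exact h.1.2.symm
  match l, hlen with
  | [a, b, c, d], _ =>
    have h1 := chk4_all a (hl a (by simp)) b (hl b (by simp)) c (hl c (by simp)) d
      (hl d (by simp))
    unfold chk4 at h1
    rw [Bool.or_eq_true] at h1
    rcases h1 with h1 | h1
    · rw [hX, beq_iff_eq.1 h1]
    · exfalso
      obtain ⟨ix, hix, h2⟩ := List.any_eq_true.1 h1
      have hix2 : ∀ ix ∈ cands4, ix.Nodup ∧ ix.length < 4 := by decide
      exact not_minimal hl ix (hix2 ix hix).1 (hix2 ix hix).2 (beq_iff_eq.1 h2) h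

theorem minimal3 {w : List (PFin H7)} (h : IsMinimalFactorization w (ofMask 61))
    (hlen : w.length = 3) : False := by
  obtain ⟨l, rfl, hl⟩ := word_codes w h.1.1
  rw [List.length_map] at hlen
  have hX : ofMask 61 = ofMask (prodL l) := by
    rw [← prod_map l fun m hm => irrs_lt m (hl m hm)]
    exact h.1.2.symm
  have hX' : prodL l = 61 := (ofMask_inj (by decide) (prodL_lt l) hX).symm
  match l, hlen with
  | [a, b, c], _ =>
    have h1 := chk3_all a (hl a (by simp)) b (hl b (by simp)) c (hl c (by simp))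
    unfold chk3 at h1
    rw [Bool.or_eq_true] at h1
    rcases h1 with h1 | h1
    · rw [hX'] at h1
      exact absurd h1 (by decide)
    · obtain ⟨ix, hix, h2⟩ := List.any_eq_true.1 h1
      have hix2 : ∀ ix ∈ cands3, ix.Nodup ∧ ix.length < 3 := by decide
      exact not_minimal hl ix (hix2 ix hix).1 (hix2 ix hix).2 (beq_iff_eq.1 h2) h

/-! ### Minimal factorizations of lengths two and four -/

theorem codes_of_mem {l : List ℕ} (v : List (PFin H7)) (hv : ∀ a ∈ v, a ∈ l.map ofMask) :
    ∃ u : List ℕ, v = u.map ofMask ∧ ∀ m ∈ u, m ∈ l := by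
  induction v with
  | nil => exact ⟨[], rfl, by simp⟩
  | cons a v ih =>
    obtain ⟨u, rfl, hu⟩ := ih fun b hb => hv b (List.mem_cons_of_mem _ hb)
    obtain ⟨m, hm, rfl⟩ := List.mem_map.1 (hv a List.mem_cons_self)
    refine ⟨m :: u, rfl, ?_⟩
    intro b hb
    rcases List.mem_cons.1 hb with rfl | hb
    · exact hm
    · exact hu b hb

/-- A word with letters in a small set that is minimal because no shorter word with letters in that
set has the same product. -/
theorem minimal_of_check (l : List ℕ) (hl : ∀ m ∈ l, m ∈ [4, 16, 32, 52])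
    (hs : ∀ v : List ℕ, (∀ m ∈ v, m ∈ l) → v.length < l.length → prodL v ≠ prodL l) :
    IsMinimalFactorization (l.map ofMask) (ofMask (prodL l)) := by
  have hlt : ∀ m ∈ [4, 16, 32, 52], m < 64 := by decide
  refine ⟨⟨?_, prod_map l fun m hm => hlt m (hl m hm)⟩, ?_⟩
  · intro a ha
    obtain ⟨m, hm, rfl⟩ := List.mem_map.1 ha
    exact irr_of_mem (hl m hm)
  · rintro ⟨v, ⟨_, hvprod⟩, hvlen, τ, _, hτ⟩
    -- the letters of `v` are among those of `l`
    have hv : ∀ a ∈ v, a ∈ l.map ofMask := by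
      intro a ha
      obtain ⟨i, rfl⟩ := List.get_of_mem ha
      rw [equ_iff.1 (hτ i)]
      exact List.get_mem _ _
    obtain ⟨u, rfl, hu⟩ := codes_of_mem v hv
    rw [prod_map u fun m hm => hlt m (hl m (hu m hm))] at hvprod
    refine hs u hu ?_ (ofMask_inj (prodL_lt _) (prodL_lt _) hvprod)
    simpa using hvlen

theorem min4 : IsMinimalFactorization ([16, 32, 4, 4].map ofMask) (ofMask 61) := by
  have h := minimal_of_check [16, 32, 4, 4] (by decide) ?_
  · have e : prodL [16, 32, 4, 4] = 61 := by decide +kernel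
    rwa [e] at h
  · intro v hv hlen
    have k0 : prodL [] ≠ prodL [16, 32, 4, 4] := by decide +kernel
    have k1 : ∀ a ∈ [16, 32, 4, 4], prodL [a] ≠ prodL [16, 32, 4, 4] := by decide +kernel
    have k2 : ∀ a ∈ [16, 32, 4, 4], ∀ b ∈ [16, 32, 4, 4],
        prodL [a, b] ≠ prodL [16, 32, 4, 4] := by decide +kernel
    have k3 : ∀ a ∈ [16, 32, 4, 4], ∀ b ∈ [16, 32, 4, 4], ∀ c ∈ [16, 32, 4, 4],
        prodL [a, b, c] ≠ prodL [16, 32, 4, 4] := by decide +kernel
    match v, hlen with
    | [], _ => exact k0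
    | [a], _ => exact k1 a (hv a (by simp))
    | [a, b], _ => exact k2 a (hv a (by simp)) b (hv b (by simp))
    | [a, b, c], _ => exact k3 a (hv a (by simp)) b (hv b (by simp)) c (hv c (by simp))
    | _ :: _ :: _ :: _ :: _, h => simp only [List.length_cons, List.length_nil] at h; omega

theorem min2 : IsMinimalFactorization ([52, 4].map ofMask) (ofMask 61) := by
  have h := minimal_of_check [52, 4] (by decide) ?_
  · have e : prodL [52, 4] = 61 := by decide +kernel
    rwa [e] at h
  · intro v hv hlen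
    have k0 : prodL [] ≠ prodL [52, 4] := by decide +kernel
    have k1 : ∀ a ∈ [52, 4], prodL [a] ≠ prodL [52, 4] := by decide +kernel
    match v, hlen with
    | [], _ => exact k0
    | [a], _ => exact k1 a (hv a (by simp))
    | _ :: _ :: _, h => simp at h

theorem not_unit : ¬ UnitDivisor (ofMask 61) := by
  rw [unitDivisor_iff]
  intro h
  have := ofMask_inj (by decide) (by decide) (h.trans ofMask_zero.symm)
  exact absurd this (by decide)

theorem mem_minLengthSet {X : PFin H7} {k : ℕ} (hk : k ≠ 0) (h : k ∈ minLengthSet X) :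
    ∃ w : List (PFin H7), IsMinimalFactorization w X ∧ w.length = k := by
  rcases h with ⟨_, h⟩ | ⟨_, h⟩
  · exact absurd h hk
  · exact h

/-- **Q2.** There is a monoid `H` with seven elements such that `𝒰ᵐ_4`, the union of the sets of
minimal lengths containing `4` in the reduced power monoid of `H`, contains `2` and `4` and does not
contain `3`; so it is not an interval. -/
theorem result :
    ∃ (H : Type) (_ : Monoid H), Nat.card H = 7 ∧
      2 ∈ unionMinLengths (PFin H) 4 ∧ 3 ∉ unionMinLengths (PFin H) 4 ∧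
      4 ∈ unionMinLengths (PFin H) 4 ∧ ¬ IsInterval (unionMinLengths (PFin H) 4) := by
  have l4 : 4 ∈ minLengthSet (ofMask 61) := Or.inr ⟨not_unit, _, min4, rfl⟩
  have l2 : 2 ∈ minLengthSet (ofMask 61) := Or.inr ⟨not_unit, _, min2, rfl⟩
  have h2 : 2 ∈ unionMinLengths (PFin H7) 4 := ⟨_, l4, l2⟩
  have h4 : 4 ∈ unionMinLengths (PFin H7) 4 := ⟨_, l4, l4⟩
  have h3 : 3 ∉ unionMinLengths (PFin H7) 4 := by
    rintro ⟨X, hX4, hX3⟩
    obtain ⟨w, hw, hlen⟩ := mem_minLengthSet (by decide) hX4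
    obtain ⟨w', hw', hlen'⟩ := mem_minLengthSet (by decide) hX3
    rw [minimal4 hw hlen] at hw'
    exact minimal3 hw' hlen'
  refine ⟨H7, inferInstance, card_H7, h2, h3, h4, ?_⟩
  rintro ⟨a, b, hab⟩
  apply h3
  rw [hab] at h2 h4 ⊢
  refine ⟨h2.1.trans ?_, le_trans ?_ h4.2⟩
  · exact Nat.cast_le.2 (by decide)
  · exact Nat.cast_le.2 (by decide)

end Pool.Agent.Results.MP_43520b_al.Q2MinimalGap
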